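import Pool.Agent.H891R2.RL.RG2

/-!
# Weighted number of sets of edges, in terms of a moment of the degrees
-/

set_option autoImplicit false

namespace Pool.Agent.TH22.LT

open Finset
open Pool.Agent.H891R2.RL.RG2 (ends ends_insert ends_card_le)

variable {V E : Type} [DecidableEq V] [DecidableEq E]

/-- degree of a vertex -/
def dg [Fintype E] (ini ter : E → V) (v : V) : ℕ :=
  (univ.filter (fun e => ini e = v ∨ ter e = v)).card

/-- connected nonempty set of edges -/
def Con (ini ter : E → V) (C : Finset E) : Prop :=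
  C.Nonempty ∧ ∀ S : Finset E, S ⊂ C → S.Nonempty →
    ∃ e ∈ C, e ∉ S ∧ (ini e ∈ ends ini ter S ∨ ter e ∈ ends ini ter S)

lemma mem_ends (ini ter : E → V) (S : Finset E) (x : V) :
    x ∈ ends ini ter S ↔ ∃ e ∈ S, x = ini e ∨ x = ter e := by
  unfold ends
  rw [mem_biUnion]
  simp only [mem_insert, mem_singleton]

lemma ends_mono (ini ter : E → V) {S T : Finset E} (h : S ⊆ T) :
    ends ini ter S ⊆ ends ini ter T := by
  intro x hx
  rw [mem_ends] at hx ⊢
  obtain ⟨e, he, h'⟩ := hx
  exact ⟨e, h he, h'⟩

lemma ends_union (ini ter : E → V) (S T : Finset E) :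
    ends ini ter (S ∪ T) = ends ini ter S ∪ ends ini ter T := by
  ext x
  rw [mem_union, mem_ends, mem_ends, mem_ends]
  constructor
  · rintro ⟨e, he, h⟩
    rcases mem_union.1 he with he | he
    · exact Or.inl ⟨e, he, h⟩
    · exact Or.inr ⟨e, he, h⟩
  · rintro (⟨e, he, h⟩ | ⟨e, he, h⟩)
    · exact ⟨e, mem_union_left _ he, h⟩
    · exact ⟨e, mem_union_right _ he, h⟩

/-- every nonempty set of edges has a component -/
lemma exists_component (ini ter : E → V) (S : Finset E) (hS : S.Nonempty) :
    ∃ C ⊆ S, Con ini ter C ∧ Disjoint (ends ini ter C) (ends ini ter (S \ C)) := by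
  classical
  obtain ⟨P, hP⟩ : ∃ P : Finset (Finset E), P = S.powerset.filter (fun C => C.Nonempty ∧
    Disjoint (ends ini ter C) (ends ini ter (S \ C))) := ⟨_, rfl⟩
  have hmem : ∀ C, C ∈ P ↔ C ⊆ S ∧ C.Nonempty ∧
      Disjoint (ends ini ter C) (ends ini ter (S \ C)) := by
    intro C
    rw [hP, mem_filter, mem_powerset]
  have hne : P.Nonempty := by
    refine ⟨S, (hmem S).2 ⟨Subset.refl S, hS, ?_⟩⟩
    rw [sdiff_self]
    have : ends ini ter (∅ : Finset E) = ∅ := by simp [ends]
    rw [Finset.bot_eq_empty, this]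
    exact disjoint_empty_right _
  obtain ⟨C, hC, hmin⟩ := exists_min_image P Finset.card hne
  obtain ⟨hCS, hC0, hCd⟩ := (hmem C).1 hC
  refine ⟨C, hCS, ⟨hC0, ?_⟩, hCd⟩
  intro T hTC hT0
  by_contra hcon
  push Not at hcon
  have hT : T ∈ P := by
    refine (hmem T).2 ⟨hTC.subset.trans hCS, hT0, ?_⟩
    rw [disjoint_left]
    intro x hx hx'
    rw [mem_ends] at hx'
    obtain ⟨e, he, hxe⟩ := hx'
    rw [mem_sdiff] at he
    by_cases heC : e ∈ C
    · have h1 := hcon e heC he.2
      rcases hxe with rfl | rfl
      · exact h1.1 hx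
      · exact h1.2 hx
    · rw [disjoint_left] at hCd
      refine hCd (ends_mono ini ter hTC.subset hx) ?_
      rw [mem_ends]
      exact ⟨e, mem_sdiff.2 ⟨he.1, heC⟩, hxe⟩
  have h1 := hmin T hT
  have h2 := card_lt_card hTC
  omega

variable [Fintype E]

/-- sets of edges grown from the vertex `r`, at vertices of degree at most that of `r` -/
def Gr (ini ter : E → V) (r : V) : ℕ → Finset (Finset E)
  | 0 => {∅}
  | j + 1 => (Gr ini ter r j).biUnion fun S =>
      (univ.filter (fun e => ∃ u ∈ insert r (ends ini ter S), dg ini ter u ≤ dg ini ter r ∧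
        (ini e = u ∨ ter e = u))).image (fun e => insert e S)

lemma Gr_card_le (ini ter : E → V) (r : V) (j : ℕ) : ∀ S ∈ Gr ini ter r j, S.card ≤ j := by
  induction j with
  | zero =>
    intro S hS
    rw [Gr, mem_singleton] at hS
    rw [hS, card_empty]
  | succ j ih =>
    intro S hS
    rw [Gr, mem_biUnion] at hS
    obtain ⟨T, hT, hS⟩ := hS
    rw [mem_image] at hS
    obtain ⟨e, _, rfl⟩ := hS
    have := ih T hT
    have := card_insert_le e T
    omega

lemma card_Gr (ini ter : E → V) (r : V) (j : ℕ) :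
    (Gr ini ter r j).card ≤ (∏ i ∈ range j, (2 * i + 1)) * dg ini ter r ^ j := by
  induction j with
  | zero => simp [Gr]
  | succ j ih =>
    have h1 : (Gr ini ter r (j + 1)).card ≤ (Gr ini ter r j).card * ((2 * j + 1) * dg ini ter r) := by
      rw [Gr]
      apply card_biUnion_le_card_mul
      intro S hS
      refine card_image_le.trans ?_
      have h2 : univ.filter (fun e => ∃ u ∈ insert r (ends ini ter S),
          dg ini ter u ≤ dg ini ter r ∧ (ini e = u ∨ ter e = u)) ⊆
          ((insert r (ends ini ter S)).filter (fun u => dg ini ter u ≤ dg ini ter r)).biUnion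
            (fun u => univ.filter (fun e => ini e = u ∨ ter e = u)) := by
        intro e he
        rw [mem_filter] at he
        obtain ⟨_, u, hu, hd, h⟩ := he
        rw [mem_biUnion]
        exact ⟨u, mem_filter.2 ⟨hu, hd⟩, mem_filter.2 ⟨mem_univ _, h⟩⟩
      refine (card_le_card h2).trans ?_
      refine (card_biUnion_le_card_mul _ _ (dg ini ter r) ?_).trans ?_
      · intro u hu
        rw [mem_filter] at hu
        exact hu.2
      · apply Nat.mul_le_mul_right
        refine (card_le_card (filter_subset _ _)).trans ?_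
        refine (card_insert_le _ _).trans ?_
        have h3 := ends_card_le ini ter S
        have h4 := Gr_card_le ini ter r j S hS
        omega
    refine h1.trans ?_
    rw [prod_range_succ, pow_succ]
    calc (Gr ini ter r j).card * ((2 * j + 1) * dg ini ter r)
        ≤ ((∏ i ∈ range j, (2 * i + 1)) * dg ini ter r ^ j) * ((2 * j + 1) * dg ini ter r) :=
          Nat.mul_le_mul_right _ ih
      _ = _ := by ring

lemma mem_Gr (ini ter : E → V) (C : Finset E) (hC : Con ini ter C) (r : V)
    (hr : r ∈ ends ini ter C) (hmax : ∀ u ∈ ends ini ter C, dg ini ter u ≤ dg ini ter r) :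
    C ∈ Gr ini ter r C.card := by
  have h : ∀ j ≤ C.card, ∃ S ⊆ C, S.card = j ∧ S ∈ Gr ini ter r j := by
    intro j
    induction j with
    | zero =>
      intro _
      exact ⟨∅, empty_subset _, card_empty, by rw [Gr, mem_singleton]⟩
    | succ j ih =>
      intro hj
      obtain ⟨S, hSC, hSj, hSG⟩ := ih (by omega)
      have hss : S ⊂ C := by
        refine ⟨hSC, fun h => ?_⟩
        have := card_le_card h
        omega
      obtain ⟨e, heC, heS, u, hu, hdu, hue⟩ : ∃ e ∈ C, e ∉ S ∧
          ∃ u ∈ insert r (ends ini ter S), dg ini ter u ≤ dg ini ter r ∧ (ini e = u ∨ ter e = u) := by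
        rcases S.eq_empty_or_nonempty with rfl | hS0
        · rw [mem_ends] at hr
          obtain ⟨e, he, h⟩ := hr
          refine ⟨e, he, notMem_empty _, r, mem_insert_self _ _, le_rfl, ?_⟩
          rcases h with h | h
          · exact Or.inl h.symm
          · exact Or.inr h.symm
        · obtain ⟨e, he, heS, h⟩ := hC.2 S hss hS0
          refine ⟨e, he, heS, ?_⟩
          rcases h with h | h
          · exact ⟨ini e, mem_insert_of_mem h, hmax _ (ends_mono ini ter hSC h), Or.inl rfl⟩
          · exact ⟨ter e, mem_insert_of_mem h, hmax _ (ends_mono ini ter hSC h), Or.inr rfl⟩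
      refine ⟨insert e S, insert_subset heC hSC, by rw [card_insert_of_notMem heS, hSj], ?_⟩
      rw [Gr, mem_biUnion]
      exact ⟨S, hSG, mem_image.2 ⟨e, mem_filter.2 ⟨mem_univ _, u, hu, hdu, hue⟩, rfl⟩⟩
  obtain ⟨S, hSC, hSj, hSG⟩ := h C.card le_rfl
  rw [eq_of_subset_of_card_le hSC hSj.ge] at hSG
  exact hSG

variable [Fintype V]

open Classical in
/-- the connected sets of `j` edges -/
noncomputable def CS (ini ter : E → V) (j : ℕ) : Finset (Finset E) :=
  (powersetCard j (univ : Finset E)).filter (fun C => Con ini ter C)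

lemma card_CS (ini ter : E → V) (j : ℕ) :
    (CS ini ter j).card ≤ (∏ i ∈ range j, (2 * i + 1)) * ∑ v : V, dg ini ter v ^ j := by
  classical
  have h1 : CS ini ter j ⊆ (univ : Finset V).biUnion (fun r => Gr ini ter r j) := by
    intro C hC
    rw [CS, mem_filter, mem_powersetCard] at hC
    obtain ⟨⟨_, hj⟩, hC⟩ := hC
    have hne : (ends ini ter C).Nonempty := by
      obtain ⟨e, he⟩ := hC.1
      exact ⟨ini e, (mem_ends ini ter C _).2 ⟨e, he, Or.inl rfl⟩⟩
    obtain ⟨r, hr, hmax⟩ := exists_max_image (ends ini ter C) (dg ini ter) hne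
    rw [mem_biUnion]
    refine ⟨r, mem_univ _, ?_⟩
    rw [← hj]
    exact mem_Gr ini ter C hC r hr hmax
  refine (card_le_card h1).trans (card_biUnion_le.trans ?_)
  rw [mul_sum]
  exact sum_le_sum fun r _ => card_Gr ini ter r j

/-- the weighted number of sets of `k` edges -/
noncomputable def WW (ini ter : E → V) (n : ℕ) (k : ℕ) : ℝ :=
  ∑ S ∈ powersetCard k (univ : Finset E), (n : ℝ) ^ k / (n : ℝ) ^ (ends ini ter S).card

lemma WW_nonneg (ini ter : E → V) (n k : ℕ) : 0 ≤ WW ini ter n k := by
  unfold WW
  exact sum_nonneg fun S _ => by positivity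

lemma WW_zero (ini ter : E → V) (n : ℕ) : WW ini ter n 0 = 1 := by
  unfold WW
  simp [ends]

/-- splitting off a component -/
lemma WW_rec (ini ter : E → V) (n : ℕ) (hn : 1 ≤ n)
    (hF : ∀ C : Finset E, C.Nonempty → C.card + 1 ≤ (ends ini ter C).card) (k : ℕ) (hk : 1 ≤ k) :
    WW ini ter n k ≤ ∑ j ∈ Icc 1 k, ((CS ini ter j).card : ℝ) / n * WW ini ter n (k - j) := by
  classical
  have hn0 : (0 : ℝ) < n := by exact_mod_cast hn
  have hn1 : (1 : ℝ) ≤ n := by exact_mod_cast hn
  have hc : ∀ S ∈ powersetCard k (univ : Finset E), ∃ C ⊆ S, Con ini ter C ∧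
      Disjoint (ends ini ter C) (ends ini ter (S \ C)) := by
    intro S hS
    rw [mem_powersetCard] at hS
    exact exists_component ini ter S (by rw [← card_pos]; omega)
  choose! c hcS hcC hcd using hc
  obtain ⟨X, hX⟩ : ∃ X : Finset (Σ _ : Finset E, Finset E), X =
    ((Icc 1 k).biUnion (CS ini ter)).sigma (fun C => powersetCard (k - C.card) (univ : Finset E)) :=
    ⟨_, rfl⟩
  obtain ⟨f, hf⟩ : ∃ f : (Σ _ : Finset E, Finset E) → ℝ, f = fun x =>
    1 / (n : ℝ) * ((n : ℝ) ^ (k - x.1.card) / (n : ℝ) ^ (ends ini ter x.2).card) := ⟨_, rfl⟩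
  have hf0 : ∀ x, 0 ≤ f x := by
    intro x
    rw [hf]
    positivity
  calc WW ini ter n k ≤ ∑ S ∈ powersetCard k (univ : Finset E), f ⟨c S, S \ c S⟩ := by
        unfold WW
        refine sum_le_sum fun S hS => ?_
        have h1 := hcS S hS
        have h2 := hcC S hS
        have h3 := hcd S hS
        rw [mem_powersetCard] at hS
        have h4 : (ends ini ter S).card = (ends ini ter (c S)).card + (ends ini ter (S \ c S)).card := by
          rw [← card_union_of_disjoint h3, ← ends_union, union_sdiff_of_subset h1]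
        have h5 := hF _ h2.1
        have h6 := card_le_card h1
        rw [hf]
        simp only
        rw [h4, pow_add, show (n : ℝ) ^ k = (n : ℝ) ^ (c S).card * (n : ℝ) ^ (k - (c S).card) by
          rw [← pow_add]; congr 1; omega, mul_div_mul_comm]
        apply mul_le_mul_of_nonneg_right _ (by positivity)
        rw [div_le_div_iff₀ (by positivity) hn0, one_mul, ← pow_succ]
        exact pow_le_pow_right₀ hn1 h5
    _ ≤ ∑ x ∈ X, f x := by
        rw [← sum_image (f := f) (s := powersetCard k (univ : Finset E))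
          (g := fun S => (⟨c S, S \ c S⟩ : Σ _ : Finset E, Finset E))]
        · apply sum_le_sum_of_subset_of_nonneg
          · intro x hx
            rw [mem_image] at hx
            obtain ⟨S, hS, rfl⟩ := hx
            have h1 := hcS S hS
            have h2 := hcC S hS
            have hS' := hS
            rw [mem_powersetCard] at hS'
            have h6 := card_le_card h1
            have h7 := card_pos.2 h2.1
            rw [hX, mem_sigma, mem_biUnion, mem_powersetCard]
            refine ⟨⟨(c S).card, mem_Icc.2 ⟨h7, by omega⟩, ?_⟩, subset_univ _, ?_⟩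
            · rw [CS, mem_filter, mem_powersetCard]
              exact ⟨⟨subset_univ _, rfl⟩, h2⟩
            · show (S \ c S).card = k - (c S).card
              rw [card_sdiff_of_subset h1, hS'.2]
          · intro x _ _
            exact hf0 x
        · intro S hS T hT h
          rw [mem_coe] at hS hT
          have h1 : c S = c T := congrArg Sigma.fst h
          have h2 : S \ c S = T \ c T := by
            have := congrArg (fun x : (Σ _ : Finset E, Finset E) => x.2) h
            exact this
          rw [← union_sdiff_of_subset (hcS S hS), ← union_sdiff_of_subset (hcS T hT), h2, h1]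
    _ = ∑ j ∈ Icc 1 k, ∑ C ∈ CS ini ter j, 1 / (n : ℝ) * WW ini ter n (k - C.card) := by
        rw [hX, sum_sigma, sum_biUnion]
        · refine sum_congr rfl fun j _ => sum_congr rfl fun C _ => ?_
          rw [hf]
          unfold WW
          rw [mul_sum]
        · intro a _ b _ hab
          rw [Function.onFun, disjoint_left]
          intro C hC hC'
          rw [CS, mem_filter, mem_powersetCard] at hC hC'
          exact hab (hC.1.2.symm.trans hC'.1.2)
    _ = ∑ j ∈ Icc 1 k, ((CS ini ter j).card : ℝ) / n * WW ini ter n (k - j) := by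
        refine sum_congr rfl fun j _ => ?_
        rw [sum_congr rfl (g := fun _ => 1 / (n : ℝ) * WW ini ter n (k - j))]
        · rw [sum_const, nsmul_eq_mul]
          ring
        · intro C hC
          rw [CS, mem_filter, mem_powersetCard] at hC
          rw [hC.1.2]

/-- moments of the degrees -/
noncomputable def MM (ini ter : E → V) (n k : ℕ) : ℝ := (∑ v : V, (dg ini ter v : ℝ) ^ k) / n

lemma MM_nonneg (ini ter : E → V) (n k : ℕ) : 0 ≤ MM ini ter n k := by
  unfold MM
  positivity

lemma MM_mul (ini ter : E → V) (n : ℕ) (hn : 1 ≤ n) (hV : Fintype.card V = n) (i j : ℕ) :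
    MM ini ter n i * MM ini ter n j ≤ MM ini ter n (i + j) := by
  have hn0 : (0 : ℝ) < n := by exact_mod_cast hn
  have h : Monovary (fun v : V => (dg ini ter v : ℝ) ^ i) (fun v => (dg ini ter v : ℝ) ^ j) := by
    intro a b hab
    have h1 : (dg ini ter a : ℝ) ≤ dg ini ter b := by
      by_contra hcon
      push Not at hcon
      exact absurd hab (not_lt.2 (pow_le_pow_left₀ (Nat.cast_nonneg _) hcon.le _))
    exact pow_le_pow_left₀ (Nat.cast_nonneg _) h1 _
  have h2 := h.sum_mul_sum_le_card_mul_sum
  rw [hV] at h2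
  unfold MM
  rw [div_mul_div_comm, div_le_div_iff₀ (by positivity) hn0]
  calc _ = (n : ℝ) * ((∑ v, (dg ini ter v : ℝ) ^ i) * ∑ v, (dg ini ter v : ℝ) ^ j) := by ring
    _ ≤ (n : ℝ) * (n * ∑ v, (dg ini ter v : ℝ) ^ i * (dg ini ter v : ℝ) ^ j) :=
        mul_le_mul_of_nonneg_left h2 hn0.le
    _ = _ := by
        rw [sum_congr rfl (fun v _ => (pow_add (dg ini ter v : ℝ) i j).symm)]
        ring

lemma MM_mono (ini ter : E → V) (n i j : ℕ) (hi : 1 ≤ i) (hij : i ≤ j) :
    MM ini ter n i ≤ MM ini ter n j := by
  unfold MM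
  apply div_le_div_of_nonneg_right _ (Nat.cast_nonneg _)
  refine sum_le_sum fun v _ => ?_
  rcases Nat.eq_zero_or_pos (dg ini ter v) with h | h
  · rw [h, Nat.cast_zero, zero_pow (by omega), zero_pow (by omega)]
  · exact pow_le_pow_right₀ (by exact_mod_cast h) hij

lemma MM_zero (ini ter : E → V) (n : ℕ) (hn : 1 ≤ n) (hV : Fintype.card V = n) :
    MM ini ter n 0 = 1 := by
  unfold MM
  have hn0 : (n : ℝ) ≠ 0 := by
    have : (0 : ℝ) < n := by exact_mod_cast hn
    exact this.ne'
  simp only [pow_zero, sum_const, card_univ, hV, nsmul_eq_mul, mul_one]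
  exact div_self hn0

/-- the weighted number of sets of `k` edges is bounded by the `k`-th moment of the degrees -/
lemma WW_le (ini ter : E → V) (n : ℕ) (hn : 1 ≤ n) (hV : Fintype.card V = n)
    (hF : ∀ C : Finset E, C.Nonempty → C.card + 1 ≤ (ends ini ter C).card)
    (K : ℕ) (a : ℕ → ℝ) (ha0 : 1 ≤ a 0) (ha : ∀ k, 0 ≤ a k)
    (hrec : ∀ k, 1 ≤ k → k ≤ K →
      ∑ j ∈ Icc 1 k, ((∏ i ∈ range j, (2 * i + 1) : ℕ) : ℝ) * a (k - j) ≤ a k) (k : ℕ) (hk : k ≤ K) :
    WW ini ter n k ≤ a k * MM ini ter n k := by
  induction k using Nat.strong_induction_on with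
  | _ k ih =>
    rcases Nat.eq_zero_or_pos k with rfl | hk1
    · rw [WW_zero, MM_zero ini ter n hn hV, mul_one]
      exact ha0
    · refine (WW_rec ini ter n hn hF k hk1).trans ?_
      have hM := MM_nonneg ini ter n k
      calc ∑ j ∈ Icc 1 k, ((CS ini ter j).card : ℝ) / n * WW ini ter n (k - j)
          ≤ ∑ j ∈ Icc 1 k, (((∏ i ∈ range j, (2 * i + 1) : ℕ) : ℝ) * a (k - j)) * MM ini ter n k := by
            refine sum_le_sum fun j hj => ?_
            rw [mem_Icc] at hj
            have h1 : ((CS ini ter j).card : ℝ) / n ≤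
                ((∏ i ∈ range j, (2 * i + 1) : ℕ) : ℝ) * MM ini ter n j := by
              unfold MM
              rw [← mul_div_assoc]
              apply div_le_div_of_nonneg_right _ (Nat.cast_nonneg _)
              have := card_CS ini ter j
              exact_mod_cast this
            have h2 := ih (k - j) (by omega) (by omega)
            have h3 := MM_mul ini ter n hn hV j (k - j)
            rw [show j + (k - j) = k by omega] at h3
            calc ((CS ini ter j).card : ℝ) / n * WW ini ter n (k - j)
                ≤ (((∏ i ∈ range j, (2 * i + 1) : ℕ) : ℝ) * MM ini ter n j) *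
                  (a (k - j) * MM ini ter n (k - j)) := by
                  apply mul_le_mul h1 h2 (WW_nonneg _ _ _ _)
                  exact mul_nonneg (Nat.cast_nonneg _) (MM_nonneg _ _ _ _)
              _ = (((∏ i ∈ range j, (2 * i + 1) : ℕ) : ℝ) * a (k - j)) *
                  (MM ini ter n j * MM ini ter n (k - j)) := by ring
              _ ≤ _ := mul_le_mul_of_nonneg_left h3 (mul_nonneg (Nat.cast_nonneg _) (ha _))
        _ = (∑ j ∈ Icc 1 k, ((∏ i ∈ range j, (2 * i + 1) : ℕ) : ℝ) * a (k - j)) *
            MM ini ter n k := by rw [sum_mul]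
        _ ≤ _ := mul_le_mul_of_nonneg_right (hrec k hk1 hk) hM

end Pool.Agent.TH22.LT
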