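import Pool.Agent.TH22.LT.M9

/-!
# Reduced labellings of a fixed tree
-/

set_option autoImplicit false

namespace Pool.Agent.TH22.LT

open Finset
open Pool.Agent.H891R2.RL
open Pool.Agent.H891R2.RL.RG2 (ends ends_insert ends_card_le)

/-- most reduced labellings of a fixed oriented tree are diagrammatically reducible -/
theorem fixed_reduced (n : ℕ) (hn : 3 ≤ n) (T : SimpleGraph (Fin n)) (hT : T.IsTree)
    (ini ter : T.edgeSet → Fin n) (he : ∀ e, s(ini e, ter e) = e.1) :
    ({lab : T.edgeSet → Fin n | RedLOG (⟨ini, ter, lab⟩ : LOG (Fin n) T.edgeSet) ∧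
      ¬ DR (⟨ini, ter, lab⟩ : LOG (Fin n) T.edgeSet).rel}.ncard : ℝ) ≤
    10 ^ 23 * (∑ v : Fin n, ((T.neighborSet v).ncard : ℝ) ^ 7) / (n : ℝ) ^ 2 *
      ({lab : T.edgeSet → Fin n |
        RedLOG (⟨ini, ter, lab⟩ : LOG (Fin n) T.edgeSet)}.ncard : ℝ) := by
  classical
  have hne : ∀ e, ini e ≠ ter e := by
    intro e h
    have h1 := e.2
    rw [← he e, h] at h1
    exact T.loopless.irrefl _ ((SimpleGraph.mem_edgeSet T).1 h1)
  have hcard : Fintype.card T.edgeSet + 1 = n := by
    have := hT.card_edgeFinset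
    rw [Fintype.card_fin, ← SimpleGraph.edgeFinset_card] at *
    convert this using 2
  have hdeg : ∀ v, dg ini ter v ≤ (T.neighborSet v).ncard := by
    intro v
    unfold dg
    rw [Set.ncard_eq_toFinset_card']
    refine Finset.card_le_card_of_injOn (fun e => if ini e = v then ter e else ini e) ?_ ?_
    · intro e hev
      simp only [Finset.coe_filter, Finset.mem_univ, true_and, Set.mem_setOf_eq] at hev
      rw [Finset.mem_coe, Set.mem_toFinset, SimpleGraph.mem_neighborSet]
      have h1 := e.2
      rw [← he e, SimpleGraph.mem_edgeSet] at h1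
      by_cases h2 : ini e = v
      · simp only [h2, if_true]
        rw [h2] at h1
        exact h1
      · simp only [h2, if_false]
        have h3 := hev.resolve_left h2
        rw [h3] at h1
        exact h1.symm
    · intro e hev e' hev' hee
      simp only [Finset.coe_filter, Finset.mem_univ, true_and, Set.mem_setOf_eq] at hev hev'
      apply Subtype.ext
      rw [← he e, ← he e']
      simp only at hee
      by_cases h2 : ini e = v <;> by_cases h2' : ini e' = v
      · rw [if_pos h2, if_pos h2'] at hee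
        rw [h2, h2', hee]
      · rw [if_pos h2, if_neg h2'] at hee
        rw [h2, hee, hev'.resolve_left h2']
        exact Sym2.eq_swap
      · rw [if_neg h2, if_pos h2'] at hee
        rw [h2', ← hee, hev.resolve_left h2]
        exact Sym2.eq_swap
      · rw [if_neg h2, if_neg h2'] at hee
        rw [hee, hev.resolve_left h2, hev'.resolve_left h2']
  have hgr : gr (ini, ter) = T := by
    unfold gr
    have h1 : (Set.range fun e => s((ini, ter).1 e, (ini, ter).2 e)) = T.edgeSet := by
      ext x
      constructor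
      · rintro ⟨e, rfl⟩
        show s(ini e, ter e) ∈ T.edgeSet
        rw [he e]
        exact e.2
      · intro hx
        exact ⟨⟨x, hx⟩, he ⟨x, hx⟩⟩
    rw [h1, SimpleGraph.fromEdgeSet_edgeSet]
  have hTr : Tr (ini, ter) := by
    apply tr_of_connected
    rw [hgr]
    exact hT.connected
  have hcard' : Fintype.card T.edgeSet + 1 = Fintype.card (Fin n) := by
    rw [hcard, Fintype.card_fin]
  have hF : ∀ C : Finset T.edgeSet, C.Nonempty → C.card + 1 ≤ (ends ini ter C).card :=
    fun C hC => forest_ends (ini, ter) hcard' hTr C hC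
  have hiff : ∀ lab : T.edgeSet → Fin n, RedLOG (⟨ini, ter, lab⟩ : LOG (Fin n) T.edgeSet) ↔
      Ok (Fe ini ter) (Ad (ini, ter)) (Lv (ini, ter)) lab := fun lab =>
    red_iff hcard' (by rw [Fintype.card_fin]; omega) ini ter lab hTr
  have h2 : {lab : T.edgeSet → Fin n | RedLOG (⟨ini, ter, lab⟩ : LOG (Fin n) T.edgeSet) ∧
      ¬ DR (⟨ini, ter, lab⟩ : LOG (Fin n) T.edgeSet).rel} =
      {lab : T.edgeSet → Fin n | Ok (Fe ini ter) (Ad (ini, ter)) (Lv (ini, ter)) lab ∧
      ¬ DR (⟨ini, ter, lab⟩ : LOG (Fin n) T.edgeSet).rel} := by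
    ext lab
    constructor
    · rintro ⟨h, h'⟩
      exact ⟨(hiff lab).1 h, h'⟩
    · rintro ⟨h, h'⟩
      exact ⟨(hiff lab).2 h, h'⟩
  have h3 : {lab : T.edgeSet → Fin n | RedLOG (⟨ini, ter, lab⟩ : LOG (Fin n) T.edgeSet)} =
      {lab : T.edgeSet → Fin n | Ok (Fe ini ter) (Ad (ini, ter)) (Lv (ini, ter)) lab} := by
    ext lab
    exact hiff lab
  rw [h2, h3]
  refine (fixedA hn ini ter hcard hne hF (Ad (ini, ter)) (fun e f h => h.imp Eq.symm Eq.symm)
    (fun e f h => h) (Lv (ini, ter))).trans ?_
  apply mul_le_mul_of_nonneg_right _ (Nat.cast_nonneg _)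
  apply div_le_div_of_nonneg_right _ (by positivity)
  apply mul_le_mul_of_nonneg_left _ (by positivity)
  refine Finset.sum_le_sum fun v _ => ?_
  exact pow_le_pow_left₀ (Nat.cast_nonneg _) (by exact_mod_cast hdeg v) 7

end Pool.Agent.TH22.LT
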