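import Pool.Agent.TH22.LT.M1
import Pool.Agent.H891R2.RL.RG3
import Pool.Agent.H891R2.RL.Fin

/-!
# Labellings of a tree: most are diagrammatically reducible
-/

set_option autoImplicit false

namespace Pool.Agent.TH22.LT

open Finset
open Pool.Agent.H891R2.RL
open Pool.Agent.H891R2.RL.RG2 (ends ends_insert ends_card_le)

/-- the number of labellings which are not sparse -/
theorem bad_count {E : Type} [Fintype E] [DecidableEq E] {n : ℕ} (hn : 1 ≤ n) (ini ter : E → Fin n)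
    (hE : Fintype.card E + 1 = n) :
    (({lab : E → Fin n | ¬ (⟨ini, ter, lab⟩ : LOG (Fin n) E).Sparse 7}.ncard : ℕ) : ℝ) * n ≤
      ∑ k ∈ Finset.Icc (1:ℕ) 7, (2 * k : ℝ) ^ k * (n : ℝ) ^ (n - 1) * WW ini ter n k := by
  classical
  set F : Finset E → Finset (E → Fin n) := fun S => univ.filter (fun lab : E → Fin n =>
      ((⟨ini, ter, lab⟩ : LOG (Fin n) E).letters S).card < 2 * S.card) with hF
  set J : Finset (Finset E) := (Finset.Icc (1:ℕ) 7).biUnion (fun k => powersetCard k univ) with hJ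
  have hsub : {lab : E → Fin n | ¬ (⟨ini, ter, lab⟩ : LOG (Fin n) E).Sparse 7} ⊆
      ((J.biUnion F : Finset (E → Fin n)) : Set (E → Fin n)) := by
    intro lab hlab
    simp only [Set.mem_setOf_eq, LOG.Sparse, not_forall, not_le] at hlab
    obtain ⟨S, hS7, hS⟩ := hlab
    rw [Finset.mem_coe, Finset.mem_biUnion]
    refine ⟨S, ?_, ?_⟩
    · rw [hJ, Finset.mem_biUnion]
      refine ⟨S.card, ?_, ?_⟩
      · rw [Finset.mem_Icc]
        refine ⟨?_, hS7⟩
        by_contra h0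
        have : S.card = 0 := by omega
        rw [this] at hS
        omega
      · rw [Finset.mem_powersetCard]
        exact ⟨Finset.subset_univ _, rfl⟩
    · rw [hF]
      simp only [Finset.mem_filter, Finset.mem_univ, true_and]
      exact hS
  have h1 : ({lab : E → Fin n | ¬ (⟨ini, ter, lab⟩ : LOG (Fin n) E).Sparse 7}.ncard) ≤
      ∑ S ∈ J, (F S).card := by
    refine (Set.ncard_le_ncard hsub (Finset.finite_toSet _)).trans ?_
    rw [Set.ncard_coe_finset]
    exact Finset.card_biUnion_le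
  have h2 : (∑ S ∈ J, (F S).card : ℕ) =
      ∑ k ∈ Finset.Icc (1:ℕ) 7, ∑ S ∈ powersetCard k (univ : Finset E), (F S).card := by
    rw [hJ, Finset.sum_biUnion]
    intro a _ b _ hab
    rw [Function.onFun, Finset.disjoint_left]
    intro S hS hS'
    rw [Finset.mem_powersetCard] at hS hS'
    exact hab (hS.2.symm.trans hS'.2)
  have h3 : ∀ k ∈ Finset.Icc (1:ℕ) 7, (∑ S ∈ powersetCard k (univ : Finset E), ((F S).card : ℝ)) * n ≤
      (2 * k : ℝ) ^ k * (n : ℝ) ^ (n - 1) * WW ini ter n k := by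
    intro k hk
    rw [Finset.mem_Icc] at hk
    rw [Finset.sum_mul]
    unfold WW
    rw [Finset.mul_sum]
    refine Finset.sum_le_sum fun S hS => ?_
    rw [Finset.mem_powersetCard] at hS
    have hS0 : S.Nonempty := by
      rw [← Finset.card_pos]
      omega
    have h5 := RG3.label_count hn ini ter S hS0
    have h6 : Fintype.card E = n - 1 := by omega
    rw [hS.2, h6] at h5
    have h7 : S.biUnion (fun e => ({ini e, ter e} : Finset (Fin n))) = ends ini ter S := rfl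
    rw [h7] at h5
    show ((univ.filter (fun lab : E → Fin n =>
      ((⟨ini, ter, lab⟩ : LOG (Fin n) E).letters S).card < 2 * S.card)).card : ℝ) * n ≤ _
    rw [hS.2]
    exact h5
  calc _ ≤ ((∑ S ∈ J, (F S).card : ℕ) : ℝ) * n := by
        refine mul_le_mul_of_nonneg_right ?_ (by positivity)
        exact_mod_cast h1
    _ = ∑ k ∈ Finset.Icc (1:ℕ) 7, (∑ S ∈ powersetCard k (univ : Finset E), ((F S).card : ℝ)) * n := by
        rw [h2]
        push_cast
        rw [Finset.sum_mul]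
    _ ≤ _ := Finset.sum_le_sum h3

/-- the constants -/
noncomputable def aa : ℕ → ℝ
  | 0 => 1
  | 1 => 1
  | 2 => 4
  | 3 => 22
  | 4 => 154
  | 5 => 1330
  | 6 => 13882
  | 7 => 171802
  | _ => 0

lemma aa_nonneg (k : ℕ) : 0 ≤ aa k := by
  unfold aa
  split <;> norm_num

lemma aa_rec (k : ℕ) (h1 : 1 ≤ k) (h2 : k ≤ 7) :
    ∑ j ∈ Icc 1 k, ((∏ i ∈ range j, (2 * i + 1) : ℕ) : ℝ) * aa (k - j) ≤ aa k := by
  interval_cases k <;>
    norm_num [Finset.sum_Icc_succ_top, Finset.prod_range_succ, aa]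

lemma pow_bound (n : ℕ) (hn : 3 ≤ n) :
    (n : ℝ) ^ (n - 1) ≤ Real.exp 4 * ((n : ℝ) - 2) ^ (n - 1) := by
  have hn0 : (3 : ℝ) ≤ n := by exact_mod_cast hn
  have hnpos : (0 : ℝ) < n := by linarith
  have hn2 : (0 : ℝ) < (n : ℝ) - 2 := by linarith
  have h1 : (n : ℝ) ≤ Real.exp (2 / ((n : ℝ) - 2)) * ((n : ℝ) - 2) := by
    have h := Real.add_one_le_exp (2 / ((n : ℝ) - 2))
    have h4 : (n : ℝ) = (2 / ((n : ℝ) - 2) + 1) * ((n : ℝ) - 2) := by
      field_simp
      ring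
    calc (n : ℝ) = (2 / ((n : ℝ) - 2) + 1) * ((n : ℝ) - 2) := h4
      _ ≤ _ := mul_le_mul_of_nonneg_right h hn2.le
  calc (n : ℝ) ^ (n - 1) ≤ (Real.exp (2 / ((n : ℝ) - 2)) * ((n : ℝ) - 2)) ^ (n - 1) :=
        pow_le_pow_left₀ hnpos.le h1 _
    _ = Real.exp (2 / ((n : ℝ) - 2)) ^ (n - 1) * ((n : ℝ) - 2) ^ (n - 1) := by rw [mul_pow]
    _ ≤ Real.exp 4 * ((n : ℝ) - 2) ^ (n - 1) := by
        apply mul_le_mul_of_nonneg_right _ (by positivity)
        rw [← Real.exp_nat_mul]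
        apply Real.exp_le_exp.mpr
        rw [Nat.cast_sub (by omega)]
        rw [mul_div_assoc', div_le_iff₀ hn2]
        push_cast
        linarith

lemma exp_four : (18160000000000 : ℝ) * Real.exp 4 ≤ 10 ^ 15 := by
  have h1 : Real.exp 4 = Real.exp 1 ^ 4 := by
    rw [← Real.exp_nat_mul]
    norm_num
  have h2 := Real.exp_one_lt_d9
  have h3 : Real.exp 1 ^ 4 ≤ 2.7182818286 ^ 4 :=
    pow_le_pow_left₀ (Real.exp_pos 1).le h2.le 4
  rw [h1]
  refine (mul_le_mul_of_nonneg_left h3 (by norm_num)).trans ?_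
  norm_num

/-- the number of compressed labellings -/
lemma card_compressed {E : Type} [Fintype E] [DecidableEq E] {n : ℕ} (ini ter : E → Fin n)
    (hE : Fintype.card E + 1 = n) (hne : ∀ e, ini e ≠ ter e) :
    {lab : E → Fin n | (⟨ini, ter, lab⟩ : LOG (Fin n) E).Compressed}.ncard = (n - 2) ^ (n - 1) := by
  classical
  have h1 : {lab : E → Fin n | (⟨ini, ter, lab⟩ : LOG (Fin n) E).Compressed} =
      ((Fintype.piFinset (fun e => (univ \ {ini e, ter e} : Finset (Fin n))) :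
        Finset (E → Fin n)) : Set (E → Fin n)) := by
    ext lab
    simp only [Set.mem_setOf_eq, LOG.Compressed, Finset.mem_coe, Fintype.mem_piFinset,
      Finset.mem_sdiff, Finset.mem_univ, true_and, Finset.mem_insert, Finset.mem_singleton, not_or]
    exact ⟨fun h e => (h e).2, fun h e => ⟨hne e, h e⟩⟩
  rw [h1, Set.ncard_coe_finset, Fintype.card_piFinset]
  have h2 : ∀ e : E, (univ \ {ini e, ter e} : Finset (Fin n)).card = n - 2 := by
    intro e
    rw [Finset.card_sdiff_of_subset (Finset.subset_univ _), Finset.card_univ, Fintype.card_fin,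
      Finset.card_pair (hne e)]
  rw [Finset.prod_congr rfl (fun e _ => h2 e), Finset.prod_const, Finset.card_univ]
  congr 1
  omega

/-- most labellings of a tree are diagrammatically reducible -/
theorem fixed {E : Type} [Fintype E] [DecidableEq E] {n : ℕ} (hn : 3 ≤ n) (ini ter : E → Fin n)
    (hE : Fintype.card E + 1 = n) (hne : ∀ e, ini e ≠ ter e)
    (hF : ∀ C : Finset E, C.Nonempty → C.card + 1 ≤ (ends ini ter C).card) :
    ({lab : E → Fin n | (⟨ini, ter, lab⟩ : LOG (Fin n) E).Compressed ∧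
      ¬ DR (⟨ini, ter, lab⟩ : LOG (Fin n) E).rel}.ncard : ℝ) ≤
    10 ^ 15 * (∑ v : Fin n, (dg ini ter v : ℝ) ^ 7) / (n : ℝ) ^ 2 *
      ({lab : E → Fin n | (⟨ini, ter, lab⟩ : LOG (Fin n) E).Compressed}.ncard : ℝ) := by
  classical
  have hn' : (3 : ℝ) ≤ n := by exact_mod_cast hn
  have hn0 : (0 : ℝ) < n := by linarith
  have hbad := bad_count (by omega) ini ter hE
  obtain ⟨B, hB⟩ : ∃ B : ℝ, B =
    ({lab : E → Fin n | ¬ (⟨ini, ter, lab⟩ : LOG (Fin n) E).Sparse 7}.ncard : ℝ) := ⟨_, rfl⟩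
  rw [← hB] at hbad
  have hsub : ({lab : E → Fin n | (⟨ini, ter, lab⟩ : LOG (Fin n) E).Compressed ∧
      ¬ DR (⟨ini, ter, lab⟩ : LOG (Fin n) E).rel}.ncard : ℝ) ≤ B := by
    have : {lab : E → Fin n | (⟨ini, ter, lab⟩ : LOG (Fin n) E).Compressed ∧
      ¬ DR (⟨ini, ter, lab⟩ : LOG (Fin n) E).rel} ⊆
      {lab : E → Fin n | ¬ (⟨ini, ter, lab⟩ : LOG (Fin n) E).Sparse 7} := by
      rintro lab ⟨h1, h2⟩ h3
      exact h2 (sparse_DR _ h1 h3)
    rw [hB]
    exact_mod_cast Set.ncard_le_ncard this (Set.toFinite _)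
  refine hsub.trans ?_
  have hM7 := MM_nonneg ini ter n 7
  have hp : (0 : ℝ) ≤ (n : ℝ) ^ (n - 1) := by positivity
  have hs : B * n ≤ 18160000000000 * ((n : ℝ) ^ (n - 1) * MM ini ter n 7) := by
    refine hbad.trans ?_
    have h1 : ∀ k ∈ Finset.Icc (1:ℕ) 7, (2 * k : ℝ) ^ k * (n : ℝ) ^ (n - 1) * WW ini ter n k ≤
        ((2 * k : ℝ) ^ k * aa k) * ((n : ℝ) ^ (n - 1) * MM ini ter n 7) := by
      intro k hk
      rw [Finset.mem_Icc] at hk
      have h2 := WW_le ini ter n (by omega) (Fintype.card_fin n) hF 7 aa le_rfl aa_nonneg aa_rec k hk.2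
      have h3 := MM_mono ini ter n k 7 hk.1 hk.2
      calc (2 * k : ℝ) ^ k * (n : ℝ) ^ (n - 1) * WW ini ter n k
          ≤ (2 * k : ℝ) ^ k * (n : ℝ) ^ (n - 1) * (aa k * MM ini ter n 7) :=
            mul_le_mul_of_nonneg_left (h2.trans (mul_le_mul_of_nonneg_left h3 (aa_nonneg k)))
              (by positivity)
        _ = _ := by ring
    refine (Finset.sum_le_sum h1).trans ?_
    rw [← Finset.sum_mul]
    apply mul_le_mul_of_nonneg_right _ (mul_nonneg hp hM7)
    norm_num [Finset.sum_Icc_succ_top, aa]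
  have hcomp := card_compressed ini ter hE hne
  rw [hcomp]
  have hn2 : (((n - 2) ^ (n - 1) : ℕ) : ℝ) = ((n : ℝ) - 2) ^ (n - 1) := by
    rw [Nat.cast_pow, Nat.cast_sub (by omega)]
    norm_num
  rw [hn2]
  have hpn : (0 : ℝ) ≤ ((n : ℝ) - 2) ^ (n - 1) := by
    have : (0 : ℝ) ≤ (n : ℝ) - 2 := by linarith
    positivity
  have h4 : B * n ≤ 10 ^ 15 * (((n : ℝ) - 2) ^ (n - 1) * MM ini ter n 7) := by
    calc B * n ≤ 18160000000000 * ((n : ℝ) ^ (n - 1) * MM ini ter n 7) := hs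
      _ ≤ 18160000000000 * ((Real.exp 4 * ((n : ℝ) - 2) ^ (n - 1)) * MM ini ter n 7) := by
          apply mul_le_mul_of_nonneg_left _ (by norm_num)
          exact mul_le_mul_of_nonneg_right (pow_bound n hn) hM7
      _ = (18160000000000 * Real.exp 4) * (((n : ℝ) - 2) ^ (n - 1) * MM ini ter n 7) := by ring
      _ ≤ _ := mul_le_mul_of_nonneg_right exp_four (mul_nonneg hpn hM7)
  have h5 : MM ini ter n 7 = (∑ v : Fin n, (dg ini ter v : ℝ) ^ 7) / n := rfl
  rw [h5] at h4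
  calc B = B * n / n := by field_simp
    _ ≤ (10 ^ 15 * (((n : ℝ) - 2) ^ (n - 1) * ((∑ v : Fin n, (dg ini ter v : ℝ) ^ 7) / n))) / n :=
        div_le_div_of_nonneg_right h4 hn0.le
    _ = _ := by
        field_simp

end Pool.Agent.TH22.LT
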