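import Pool.Agent.TH22.LT.M1

/-!
# Moments of the degrees in the set of all trees on a vertex set
-/

set_option autoImplicit false

namespace Pool.Agent.TH22.LT

open Finset
open Pool.Agent.H891R2.RL.RG2 (ends ends_insert ends_card_le)

variable {V E : Type} [DecidableEq V] [DecidableEq E]

/-- the graph with the edges `p.1 e - p.2 e` is connected -/
def Tr [Fintype V] (p : (E → V) × (E → V)) : Prop :=
  ∀ A : Finset V, A.Nonempty → (∀ e, p.1 e ∈ A ↔ p.2 e ∈ A) → A = univ

/-- a connected graph with `|V| - 1` edges is a forest -/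
lemma forest [Fintype V] [Fintype E] (p : (E → V) × (E → V)) (hE : Fintype.card E + 1 = Fintype.card V)
    (hp : Tr p) : ∀ m : ℕ, ∀ X : Finset V, X.Nonempty → Fintype.card V - X.card = m →
      (univ.filter (fun e => p.1 e ∈ X ∧ p.2 e ∈ X)).card + 1 ≤ X.card := by
  intro m
  induction m with
  | zero =>
    intro X hX hm
    have h1 : X = univ := by
      rw [← card_eq_iff_eq_univ]
      have := card_le_univ X
      omega
    rw [h1, card_univ, ← hE]
    have := card_filter_le (univ : Finset E) (fun e => p.1 e ∈ (univ : Finset V) ∧ p.2 e ∈ (univ : Finset V))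
    rw [card_univ] at this
    omega
  | succ m ih =>
    intro X hX hm
    have hne : X ≠ univ := by
      rintro rfl
      rw [card_univ] at hm
      omega
    have h1 : ∃ e, ¬ (p.1 e ∈ X ↔ p.2 e ∈ X) := by
      by_contra hcon
      push Not at hcon
      exact hne (hp X hX hcon)
    obtain ⟨e, he⟩ := h1
    obtain ⟨x, hx, h1, h2⟩ : ∃ x, x ∉ X ∧ p.1 e ∈ insert x X ∧ p.2 e ∈ insert x X := by
      by_cases h : p.1 e ∈ X
      · refine ⟨p.2 e, fun h' => he ⟨fun _ => h', fun _ => h⟩, mem_insert_of_mem h, mem_insert_self _ _⟩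
      · refine ⟨p.1 e, h, mem_insert_self _ _, ?_⟩
        by_cases h' : p.2 e ∈ X
        · exact mem_insert_of_mem h'
        · exact absurd ⟨fun h1 => absurd h1 h, fun h1 => absurd h1 h'⟩ he
    have h3 := ih (insert x X) (insert_nonempty _ _) (by
      rw [card_insert_of_notMem hx]
      omega)
    rw [card_insert_of_notMem hx] at h3
    have h4 : (univ.filter (fun e => p.1 e ∈ X ∧ p.2 e ∈ X)).card + 1 ≤
        (univ.filter (fun e => p.1 e ∈ insert x X ∧ p.2 e ∈ insert x X)).card := by
      rw [Nat.succ_le_iff]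
      apply card_lt_card
      refine ⟨?_, ?_⟩
      · intro f hf
        rw [mem_filter] at hf ⊢
        exact ⟨mem_univ _, mem_insert_of_mem hf.2.1, mem_insert_of_mem hf.2.2⟩
      · intro hsub
        have h5 : e ∈ univ.filter (fun e => p.1 e ∈ X ∧ p.2 e ∈ X) :=
          hsub (mem_filter.2 ⟨mem_univ _, h1, h2⟩)
        rw [mem_filter] at h5
        exact he ⟨fun _ => h5.2.2, fun _ => h5.2.1⟩
    omega

lemma forest_ends [Fintype V] [Fintype E] (p : (E → V) × (E → V))
    (hE : Fintype.card E + 1 = Fintype.card V) (hp : Tr p) (C : Finset E) (hC : C.Nonempty) :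
    C.card + 1 ≤ (ends p.1 p.2 C).card := by
  obtain ⟨e, he⟩ := hC
  have h1 := forest p hE hp _ (ends p.1 p.2 C) ⟨p.1 e, (mem_ends _ _ _ _).2 ⟨e, he, Or.inl rfl⟩⟩ rfl
  have h2 : C ⊆ univ.filter (fun e => p.1 e ∈ ends p.1 p.2 C ∧ p.2 e ∈ ends p.1 p.2 C) := by
    intro f hf
    rw [mem_filter]
    exact ⟨mem_univ _, (mem_ends _ _ _ _).2 ⟨f, hf, Or.inl rfl⟩,
      (mem_ends _ _ _ _).2 ⟨f, hf, Or.inr rfl⟩⟩
  have h3 := card_le_card h2
  omega

lemma no_loop [Fintype V] [Fintype E] (p : (E → V) × (E → V))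
    (hE : Fintype.card E + 1 = Fintype.card V) (hp : Tr p) (e : E) : p.1 e ≠ p.2 e := by
  intro h
  have h1 := forest p hE hp _ {p.1 e} (singleton_nonempty _) rfl
  rw [card_singleton] at h1
  have h2 : 0 < (univ.filter (fun f => p.1 f ∈ ({p.1 e} : Finset V) ∧ p.2 f ∈ ({p.1 e} : Finset V))).card := by
    rw [card_pos]
    exact ⟨e, mem_filter.2 ⟨mem_univ _, mem_singleton_self _, by rw [← h]; exact mem_singleton_self _⟩⟩
  omega

/-- the edge `e` is moved from `v` to `u` -/
def sw (p : (E → V) × (E → V)) (e : E) (v u : V) : (E → V) × (E → V) :=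
  if p.1 e = v then (Function.update p.1 e u, p.2) else (p.1, Function.update p.2 e u)

lemma sw_ne (p : (E → V) × (E → V)) (e : E) (v u : V) (f : E) (hf : f ≠ e) :
    (sw p e v u).1 f = p.1 f ∧ (sw p e v u).2 f = p.2 f := by
  unfold sw
  split_ifs <;> simp [hf]

/-- at most one of the edges at `v` cannot be moved to `u` -/
lemma switch [Fintype V] [Fintype E] (p : (E → V) × (E → V)) (hp : Tr p) (u v : V) (huv : u ≠ v) :
    ∃ e₀ : E, ∀ e, (p.1 e = v ∨ p.2 e = v) → e ≠ e₀ → Tr (sw p e v u) := by
  classical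
  obtain ⟨Hc, hHc⟩ : ∃ Hc : Finset V → Prop, Hc = fun A =>
    ∀ e, p.1 e ≠ v → p.2 e ≠ v → (p.1 e ∈ A ↔ p.2 e ∈ A) := ⟨_, rfl⟩
  obtain ⟨A₀, hA₀⟩ : ∃ A₀ : Finset V, A₀ = univ.filter (fun x => ∀ A : Finset V, Hc A → u ∈ A → x ∈ A) :=
    ⟨_, rfl⟩
  have hmem : ∀ x, x ∈ A₀ ↔ ∀ A : Finset V, Hc A → u ∈ A → x ∈ A := by
    intro x
    rw [hA₀, mem_filter]
    simp only [mem_univ, true_and]
  have huA : u ∈ A₀ := (hmem u).2 fun A _ h => h
  have hcA : Hc A₀ := by
    rw [hHc]
    intro e h1 h2
    rw [hmem, hmem]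
    constructor
    · intro h A hA hu
      have hA' := hA
      rw [hHc] at hA'
      exact (hA' e h1 h2).1 (h A hA hu)
    · intro h A hA hu
      have hA' := hA
      rw [hHc] at hA'
      exact (hA' e h1 h2).2 (h A hA hu)
  have hvA : v ∉ A₀ := by
    intro h
    have h1 := (hmem v).1 h (univ.erase v) (by
      rw [hHc]
      intro e h1 h2
      simp only [mem_erase, mem_univ, and_true]
      exact ⟨fun _ => h2, fun _ => h1⟩) (by simp [huv])
    simp at h1
  have h1 : ∃ e, ¬ (p.1 e ∈ A₀ ↔ p.2 e ∈ A₀) := by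
    by_contra hcon
    push Not at hcon
    have := hp A₀ ⟨u, huA⟩ hcon
    rw [this] at hvA
    exact hvA (mem_univ _)
  obtain ⟨e₀, he₀⟩ := h1
  refine ⟨e₀, ?_⟩
  intro e hev hne B hB hBc
  have hB1 : ∀ f, f ≠ e → (p.1 f ∈ B ↔ p.2 f ∈ B) := by
    intro f hf
    have h2 := hBc f
    rw [(sw_ne p e v u f hf).1, (sw_ne p e v u f hf).2] at h2
    exact h2
  have hBH : ∀ f, p.1 f ≠ v → p.2 f ≠ v → (p.1 f ∈ B ↔ p.2 f ∈ B) := by
    intro f h2 h3
    apply hB1
    rintro rfl
    exact hev.elim h2 h3
  -- members of `A₀` are in `B` iff `u` is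
  have hAB : ∀ w ∈ A₀, (w ∈ B ↔ u ∈ B) := by
    intro w hw
    constructor
    · intro hwB
      by_contra huB
      have h3 := (hmem w).1 hw Bᶜ (by
        rw [hHc]
        intro f h2 h3
        rw [mem_compl, mem_compl, hBH f h2 h3]) (mem_compl.2 huB)
      exact mem_compl.1 h3 hwB
    · intro huB
      exact (hmem w).1 hw B (by rw [hHc]; exact hBH) huB
  have hvB : v ∈ B ↔ u ∈ B := by
    have h2 : p.1 e₀ = v ∨ p.2 e₀ = v := by
      by_contra hcon
      push Not at hcon
      have hcA' := hcA
      rw [hHc] at hcA'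
      exact he₀ (hcA' e₀ hcon.1 hcon.2)
    have h3 := hB1 e₀ hne.symm
    rcases h2 with h2 | h2
    · have h4 : p.2 e₀ ∈ A₀ := by
        by_contra h4
        apply he₀
        rw [h2]
        exact ⟨fun h => absurd h hvA, fun h => absurd h h4⟩
      rw [h2] at h3
      rw [h3]
      exact hAB _ h4
    · have h4 : p.1 e₀ ∈ A₀ := by
        by_contra h4
        apply he₀
        rw [h2]
        exact ⟨fun h => absurd h h4, fun h => absurd h hvA⟩
      rw [h2] at h3
      rw [← h3]
      exact hAB _ h4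
  apply hp B hB
  intro f
  by_cases hf : f = e
  · rw [hf]
    have h2 := hBc e
    unfold sw at h2
    split_ifs at h2 with h3
    · simp only [Function.update_self] at h2
      rw [h3, hvB]
      exact h2
    · simp only [Function.update_self] at h2
      have h4 := hev.resolve_left h3
      rw [h4, hvB]
      exact h2
  · exact hB1 f hf

variable [Fintype V] [Fintype E]

open Classical in
/-- all connected graphs -/
noncomputable def TT (E V : Type) [DecidableEq E] [Fintype V] [Fintype E] :
    Finset ((E → V) × (E → V)) := univ.filter (fun p => Tr p)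

lemma mem_TT (p : (E → V) × (E → V)) : p ∈ TT E V ↔ Tr p := by
  classical
  simp [TT]

open Classical in
/-- the possible moves -/
noncomputable def PM (p : (E → V) × (E → V)) (v : V) : Finset (E × V) :=
  univ.filter (fun x => (p.1 x.1 = v ∨ p.2 x.1 = v) ∧ x.2 ≠ v ∧ Tr (sw p x.1 v x.2))

lemma mem_PM (p : (E → V) × (E → V)) (v : V) (x : E × V) :
    x ∈ PM p v ↔ (p.1 x.1 = v ∨ p.2 x.1 = v) ∧ x.2 ≠ v ∧ Tr (sw p x.1 v x.2) := by
  classical
  simp [PM]

lemma card_PM (p : (E → V) × (E → V)) (hp : Tr p) (v : V) :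
    (dg p.1 p.2 v - 1) * (Fintype.card V - 1) ≤ (PM p v).card := by
  classical
  rw [card_eq_sum_card_fiberwise (f := Prod.snd) (t := univ.erase v)]
  · have h1 : ∀ u ∈ (univ : Finset V).erase v, dg p.1 p.2 v - 1 ≤
        ((PM p v).filter (fun x => x.2 = u)).card := by
      intro u hu
      rw [mem_erase] at hu
      obtain ⟨e₀, he₀⟩ := switch p hp u v hu.1
      have h2 : ((univ.filter (fun e => p.1 e = v ∨ p.2 e = v)).erase e₀).card ≤
          ((PM p v).filter (fun x => x.2 = u)).card := by
        apply card_le_card_of_injOn (fun e => (e, u))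
        · intro e he
          rw [mem_coe, mem_erase, mem_filter] at he
          rw [mem_coe, mem_filter, mem_PM]
          exact ⟨⟨he.2.2, hu.1, he₀ e he.2.2 he.1⟩, rfl⟩
        · intro a _ b _ h
          exact (Prod.mk.inj h).1
      have h3 := pred_card_le_card_erase (s := univ.filter (fun e => p.1 e = v ∨ p.2 e = v)) (a := e₀)
      exact h3.trans h2
    calc (dg p.1 p.2 v - 1) * (Fintype.card V - 1)
        = ∑ _u ∈ (univ : Finset V).erase v, (dg p.1 p.2 v - 1) := by
          rw [sum_const, card_erase_of_mem (mem_univ _), card_univ, smul_eq_mul, mul_comm]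
      _ ≤ _ := sum_le_sum h1
  · intro x hx
    rw [mem_coe, mem_PM] at hx
    rw [mem_coe, mem_erase]
    exact ⟨hx.2.1, mem_univ _⟩

lemma dg_sw (p : (E → V) × (E → V)) (e : E) (v u : V) :
    dg p.1 p.2 v ≤ dg (sw p e v u).1 (sw p e v u).2 v + 1 := by
  have h1 : univ.filter (fun f => p.1 f = v ∨ p.2 f = v) ⊆
      insert e (univ.filter (fun f => (sw p e v u).1 f = v ∨ (sw p e v u).2 f = v)) := by
    intro f hf
    rw [mem_filter] at hf
    rw [mem_insert]
    by_cases h : f = e
    · exact Or.inl h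
    · right
      rw [mem_filter, (sw_ne p e v u f h).1, (sw_ne p e v u f h).2]
      exact ⟨mem_univ _, hf.2⟩
  exact (card_le_card h1).trans (card_insert_le _ _)

/-- the switching inequality -/
lemma switching (v : V) (g : ℕ → ℕ) (hg : Monotone g) :
    ∑ p ∈ TT E V, ((dg p.1 p.2 v - 1) * (Fintype.card V - 1)) * g (dg p.1 p.2 v) ≤
      (2 * Fintype.card E) * ∑ p ∈ TT E V, g (dg p.1 p.2 v + 1) := by
  classical
  obtain ⟨φ, hφ⟩ : ∃ φ : (Σ _ : (E → V) × (E → V), E × V) → ((E → V) × (E → V)) × (E × Bool),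
    φ = fun x => (sw x.1 x.2.1 v x.2.2, (x.2.1, decide (x.1.1 x.2.1 = v))) := ⟨_, rfl⟩
  calc ∑ p ∈ TT E V, ((dg p.1 p.2 v - 1) * (Fintype.card V - 1)) * g (dg p.1 p.2 v)
      ≤ ∑ p ∈ TT E V, ∑ x ∈ PM p v, g (dg (sw p x.1 v x.2).1 (sw p x.1 v x.2).2 v + 1) := by
        refine sum_le_sum fun p hp => ?_
        rw [mem_TT] at hp
        calc ((dg p.1 p.2 v - 1) * (Fintype.card V - 1)) * g (dg p.1 p.2 v)
            ≤ (PM p v).card * g (dg p.1 p.2 v) := Nat.mul_le_mul_right _ (card_PM p hp v)
          _ = ∑ x ∈ PM p v, g (dg p.1 p.2 v) := by rw [sum_const, smul_eq_mul]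
          _ ≤ _ := sum_le_sum fun x _ => hg (dg_sw p x.1 v x.2)
    _ = ∑ x ∈ (TT E V).sigma (fun p => PM p v), g (dg (φ x).1.1 (φ x).1.2 v + 1) := by
        rw [sum_sigma, hφ]
    _ ≤ ∑ y ∈ (TT E V) ×ˢ (univ : Finset (E × Bool)), g (dg y.1.1 y.1.2 v + 1) := by
        rw [← sum_image (f := fun y : ((E → V) × (E → V)) × (E × Bool) => g (dg y.1.1 y.1.2 v + 1))
          (s := (TT E V).sigma (fun p => PM p v)) (g := φ)]
        · apply sum_le_sum_of_subset
          intro y hy
          rw [mem_image] at hy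
          obtain ⟨x, hx, rfl⟩ := hy
          rw [mem_sigma, mem_PM] at hx
          rw [mem_product, mem_TT, hφ]
          exact ⟨hx.2.2.2, mem_univ _⟩
        · rintro ⟨p, e, u⟩ hx ⟨p', e', u'⟩ hx' h
          rw [mem_coe, mem_sigma, mem_PM] at hx hx'
          obtain ⟨-, hv, -, -⟩ := hx
          obtain ⟨-, hv', -, -⟩ := hx'
          simp only at hv hv'
          rw [hφ] at h
          simp only [Prod.mk.injEq] at h
          obtain ⟨h1, h2, h3⟩ := h
          subst h2
          have hiff : p.1 e = v ↔ p'.1 e = v := by simpa using h3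
          unfold sw at h1
          by_cases hc : p.1 e = v
          · have hc' := hiff.1 hc
            rw [if_pos hc, if_pos hc', Prod.mk.injEq] at h1
            obtain ⟨h4, h5⟩ := h1
            have hu : u = u' := by
              have := congrFun h4 e
              simpa using this
            have hp1 : p.1 = p'.1 := by
              funext f
              by_cases hf : f = e
              · rw [hf, hc, hc']
              · have := congrFun h4 f
                rwa [Function.update_of_ne hf, Function.update_of_ne hf] at this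
            have hpp : p = p' := Prod.ext hp1 h5
            rw [hpp, hu]
          · have hc' : ¬ p'.1 e = v := fun h => hc (hiff.2 h)
            rw [if_neg hc, if_neg hc', Prod.mk.injEq] at h1
            obtain ⟨h5, h4⟩ := h1
            have hu : u = u' := by
              have := congrFun h4 e
              simpa using this
            have hp2 : p.2 = p'.2 := by
              funext f
              by_cases hf : f = e
              · rw [hf, hv.resolve_left hc, hv'.resolve_left hc']
              · have := congrFun h4 f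
                rwa [Function.update_of_ne hf, Function.update_of_ne hf] at this
            have hpp : p = p' := Prod.ext h5 hp2
            rw [hpp, hu]
    _ = (2 * Fintype.card E) * ∑ p ∈ TT E V, g (dg p.1 p.2 v + 1) := by
        rw [sum_product, mul_sum]
        refine sum_congr rfl fun p _ => ?_
        show ∑ _y : E × Bool, g (dg p.1 p.2 v + 1) = _
        rw [sum_const, card_univ, Fintype.card_prod, Fintype.card_bool, smul_eq_mul,
          mul_comm (Fintype.card E) 2]

/-- factorial moments -/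
lemma fact_moment (hE : Fintype.card E + 1 = Fintype.card V) (hE0 : 0 < Fintype.card E) (v : V) (m : ℕ) :
    ∑ p ∈ TT E V, (dg p.1 p.2 v - 1).descFactorial m ≤ 2 ^ m * (TT E V).card := by
  induction m with
  | zero => simp
  | succ m ih =>
    have h1 := switching (E := E) v (fun d => (d - 2).descFactorial m) (by
      intro a b hab
      exact Nat.descFactorial_le m (Nat.sub_le_sub_right hab 2))
    have h2 : ∀ d : ℕ, (d - 1) * (d - 2).descFactorial m = (d - 1).descFactorial (m + 1) := by
      intro d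
      rcases Nat.lt_or_ge d 2 with h | h
      · have h3 : d - 1 = 0 := by omega
        rw [h3, zero_mul, Nat.zero_descFactorial_succ]
      · obtain ⟨c, rfl⟩ : ∃ c, d = c + 2 := ⟨d - 2, by omega⟩
        rw [show c + 2 - 1 = c + 1 by omega, show c + 2 - 2 = c by omega,
          Nat.succ_descFactorial_succ]
    have h3 : Fintype.card V - 1 = Fintype.card E := by omega
    rw [h3] at h1
    have h4 : ∑ p ∈ TT E V, (dg p.1 p.2 v - 1) * Fintype.card E * (dg p.1 p.2 v - 2).descFactorial m =
        Fintype.card E * ∑ p ∈ TT E V, (dg p.1 p.2 v - 1).descFactorial (m + 1) := by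
      rw [mul_sum]
      refine sum_congr rfl fun p _ => ?_
      rw [← h2]
      ring
    rw [h4] at h1
    have h5 : ∑ p ∈ TT E V, (dg p.1 p.2 v + 1 - 2).descFactorial m =
        ∑ p ∈ TT E V, (dg p.1 p.2 v - 1).descFactorial m := by
      refine sum_congr rfl fun p _ => ?_
      congr 1
    rw [h5] at h1
    have h6 : Fintype.card E * ∑ p ∈ TT E V, (dg p.1 p.2 v - 1).descFactorial (m + 1) ≤
        Fintype.card E * (2 ^ (m + 1) * (TT E V).card) := by
      refine h1.trans ?_
      rw [pow_succ]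
      calc 2 * Fintype.card E * ∑ p ∈ TT E V, (dg p.1 p.2 v - 1).descFactorial m
          ≤ 2 * Fintype.card E * (2 ^ m * (TT E V).card) := Nat.mul_le_mul_left _ ih
        _ = _ := by ring
    exact Nat.le_of_mul_le_mul_left h6 hE0

lemma desc_step (x m : ℕ) : (x + 1) * x.descFactorial m =
    x.descFactorial (m + 1) + (m + 1) * x.descFactorial m := by
  rw [Nat.descFactorial_succ]
  rcases Nat.lt_or_ge x m with h | h
  · have h1 : x.descFactorial m = 0 := Nat.descFactorial_eq_zero_iff_lt.2 h
    rw [h1]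
    simp
  · obtain ⟨c, rfl⟩ : ∃ c, x = m + c := ⟨x - m, by omega⟩
    rw [show m + c - m = c by omega]
    ring

lemma pow_seven (d : ℕ) : d ^ 7 ≤ 1 * (d - 1).descFactorial 0 + 127 * (d - 1).descFactorial 1 +
    966 * (d - 1).descFactorial 2 + 1701 * (d - 1).descFactorial 3 + 1050 * (d - 1).descFactorial 4 +
    266 * (d - 1).descFactorial 5 + 28 * (d - 1).descFactorial 6 + 1 * (d - 1).descFactorial 7 := by
  rcases Nat.eq_zero_or_pos d with rfl | hd
  · simp
  · obtain ⟨x, rfl⟩ : ∃ x, d = x + 1 := ⟨d - 1, by omega⟩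
    rw [show x + 1 - 1 = x by omega]
    have h0 := desc_step x 0
    have h1 := desc_step x 1
    have h2 := desc_step x 2
    have h3 := desc_step x 3
    have h4 := desc_step x 4
    have h5 := desc_step x 5
    have h6 := desc_step x 6
    have e0 : x.descFactorial 0 = 1 := Nat.descFactorial_zero x
    generalize x.descFactorial 0 = f0 at *
    generalize x.descFactorial (0 + 1) = f1 at *
    generalize x.descFactorial (1 + 1) = f2 at *
    generalize x.descFactorial (2 + 1) = f3 at *
    generalize x.descFactorial (3 + 1) = f4 at *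
    generalize x.descFactorial (4 + 1) = f5 at *
    generalize x.descFactorial (5 + 1) = f6 at *
    generalize x.descFactorial (6 + 1) = f7 at *
    subst e0
    apply le_of_eq
    zify at *
    have a1 : (x + 1 : ℤ) = f1 + 1 := by linear_combination h0
    have a2 : (x + 1 : ℤ) ^ 2 = f2 + 3 * f1 + 1 := by
      linear_combination (x + 1 : ℤ) * a1 + h1 + h0
    have a3 : (x + 1 : ℤ) ^ 3 = f3 + 6 * f2 + 7 * f1 + 1 := by
      linear_combination (x + 1 : ℤ) * a2 + h2 + 3 * h1 + h0
    have a4 : (x + 1 : ℤ) ^ 4 = f4 + 10 * f3 + 25 * f2 + 15 * f1 + 1 := by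
      linear_combination (x + 1 : ℤ) * a3 + h3 + 6 * h2 + 7 * h1 + h0
    have a5 : (x + 1 : ℤ) ^ 5 = f5 + 15 * f4 + 65 * f3 + 90 * f2 + 31 * f1 + 1 := by
      linear_combination (x + 1 : ℤ) * a4 + h4 + 10 * h3 + 25 * h2 + 15 * h1 + h0
    have a6 : (x + 1 : ℤ) ^ 6 = f6 + 21 * f5 + 140 * f4 + 350 * f3 + 301 * f2 + 63 * f1 + 1 := by
      linear_combination (x + 1 : ℤ) * a5 + h5 + 15 * h4 + 65 * h3 + 90 * h2 + 31 * h1 + h0
    linear_combination (x + 1 : ℤ) * a6 + h6 + 21 * h5 + 140 * h4 + 350 * h3 + 301 * h2 + 63 * h1 + h0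

/-- the seventh moment of the degree of a vertex -/
lemma moment_seven (hE : Fintype.card E + 1 = Fintype.card V) (hE0 : 0 < Fintype.card E) (v : V) :
    ∑ p ∈ TT E V, dg p.1 p.2 v ^ 7 ≤ 44959 * (TT E V).card := by
  refine (sum_le_sum fun p _ => pow_seven (dg p.1 p.2 v)).trans ?_
  simp only [sum_add_distrib, ← mul_sum]
  have h := fact_moment hE hE0 v
  have h0 := h 0
  have h1 := h 1
  have h2 := h 2
  have h3 := h 3
  have h4 := h 4
  have h5 := h 5
  have h6 := h 6
  have h7 := h 7
  norm_num at h0 h1 h2 h3 h4 h5 h6 h7 ⊢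
  omega

end Pool.Agent.TH22.LT
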