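import Pool.Agent.TH22.LT.M2
import Pool.Agent.TH22.LT.M3

/-!
# Random labelled oriented trees: the final counts
-/

set_option autoImplicit false

namespace Pool.Agent.TH22.LT

open Finset
open Pool.Agent.H891R2.RL
open Pool.Agent.H891R2.RL.RG2 (ends)

variable {V E : Type} [DecidableEq V] [DecidableEq E]

/-- the underlying simple graph -/
def gr (p : (E → V) × (E → V)) : SimpleGraph V :=
  SimpleGraph.fromEdgeSet (Set.range fun e => s(p.1 e, p.2 e))

lemma tr_of_connected [Fintype V] (p : (E → V) × (E → V)) (h : (gr p).Connected) : Tr p := by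
  intro A hA hc
  obtain ⟨a, ha⟩ := hA
  rw [eq_univ_iff_forall]
  intro x
  obtain ⟨w⟩ := h.preconnected a x
  have key : ∀ (u v : V) (w : (gr p).Walk u v), u ∈ A → v ∈ A := by
    intro u v w
    induction w with
    | nil => exact fun h => h
    | @cons u v' w' hadj _ ih =>
      intro hu
      apply ih
      unfold gr at hadj
      rw [SimpleGraph.fromEdgeSet_adj] at hadj
      obtain ⟨⟨e, he⟩, -⟩ := hadj
      simp only [Sym2.eq_iff] at he
      rcases he with ⟨h1, h2⟩ | ⟨h1, h2⟩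
      · rw [← h2]
        rw [← h1] at hu
        exact (hc e).1 hu
      · rw [← h1]
        rw [← h2] at hu
        exact (hc e).2 hu
  exact key a x w ha

lemma tree_of_tr [Fintype V] [Fintype E] [Nonempty V] (p : (E → V) × (E → V))
    (hE : Fintype.card E + 1 = Fintype.card V) (hp : Tr p) : (gr p).IsTree := by
  classical
  have hconn : (gr p).Connected := by
    refine ⟨fun a x => ?_⟩
    have h1 := hp (univ.filter (fun y => (gr p).Reachable a y)) ⟨a, by simp⟩ (by
      intro e
      simp only [mem_filter, mem_univ, true_and]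
      by_cases h : p.1 e = p.2 e
      · rw [h]
      · have hadj : (gr p).Adj (p.1 e) (p.2 e) := by
          unfold gr
          rw [SimpleGraph.fromEdgeSet_adj]
          exact ⟨⟨e, rfl⟩, h⟩
        exact ⟨fun h' => h'.trans hadj.reachable, fun h' => h'.trans hadj.symm.reachable⟩)
    have h2 : x ∈ univ.filter (fun y => (gr p).Reachable a y) := by
      rw [h1]
      exact mem_univ _
    rw [mem_filter] at h2
    exact h2.2
  rw [SimpleGraph.isTree_iff_connected_and_card]
  refine ⟨hconn, ?_⟩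
  have h1 := hconn.card_vert_le_card_edgeSet_add_one
  have h2 : Nat.card (gr p).edgeSet ≤ Fintype.card E := by
    have h3 : (gr p).edgeSet ⊆ Set.range fun e => s(p.1 e, p.2 e) := by
      unfold gr
      rw [SimpleGraph.edgeSet_fromEdgeSet]
      exact Set.diff_subset
    calc Nat.card (gr p).edgeSet ≤ Nat.card (Set.range fun e => s(p.1 e, p.2 e)) :=
          Nat.card_mono (Set.toFinite _) h3
      _ ≤ Nat.card E := Finite.card_range_le _
      _ = Fintype.card E := Nat.card_eq_fintype_card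
  rw [Nat.card_eq_fintype_card (α := V)] at h1 ⊢
  omega

lemma tr_iff_tree [Fintype V] [Fintype E] [Nonempty V] (p : (E → V) × (E → V))
    (hE : Fintype.card E + 1 = Fintype.card V) : (gr p).IsTree ↔ Tr p :=
  ⟨fun h => tr_of_connected p h.connected, tree_of_tr p hE⟩

/-- the bound for one tree -/
theorem fixed_tree (n : ℕ) (hn : 3 ≤ n) (T : SimpleGraph (Fin n)) (hT : T.IsTree)
    (ini ter : T.edgeSet → Fin n) (he : ∀ e, s(ini e, ter e) = e.1) :
    ({lab : T.edgeSet → Fin n | (⟨ini, ter, lab⟩ : LOG (Fin n) T.edgeSet).Compressed ∧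
      ¬ DR (⟨ini, ter, lab⟩ : LOG (Fin n) T.edgeSet).rel}.ncard : ℝ) ≤
    10 ^ 15 * (∑ v : Fin n, ((T.neighborSet v).ncard : ℝ) ^ 7) / (n : ℝ) ^ 2 *
      ({lab : T.edgeSet → Fin n |
        (⟨ini, ter, lab⟩ : LOG (Fin n) T.edgeSet).Compressed}.ncard : ℝ) := by
  classical
  have hne : ∀ e, ini e ≠ ter e := by
    intro e h
    have h1 := e.2
    rw [← he e, h] at h1
    exact T.loopless.irrefl _ ((SimpleGraph.mem_edgeSet T).1 h1)
  have hcard : Fintype.card T.edgeSet + 1 = n := by
    have := hT.card_edgeFinset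
    rw [Fintype.card_fin, ← SimpleGraph.edgeFinset_card] at *
    convert this using 2
  have hdeg : ∀ v, dg ini ter v ≤ (T.neighborSet v).ncard := by
    intro v
    unfold dg
    rw [Set.ncard_eq_toFinset_card']
    refine Finset.card_le_card_of_injOn (fun e => if ini e = v then ter e else ini e) ?_ ?_
    · intro e hev
      simp only [Finset.coe_filter, Finset.mem_univ, true_and, Set.mem_setOf_eq] at hev
      rw [Finset.mem_coe, Set.mem_toFinset, SimpleGraph.mem_neighborSet]
      have h1 := e.2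
      rw [← he e, SimpleGraph.mem_edgeSet] at h1
      by_cases h2 : ini e = v
      · simp only [h2, if_true]
        rw [h2] at h1
        exact h1
      · simp only [h2, if_false]
        have h3 := hev.resolve_left h2
        rw [h3] at h1
        exact h1.symm
    · intro e hev e' hev' hee
      simp only [Finset.coe_filter, Finset.mem_univ, true_and, Set.mem_setOf_eq] at hev hev'
      apply Subtype.ext
      rw [← he e, ← he e']
      simp only at hee
      by_cases h2 : ini e = v <;> by_cases h2' : ini e' = v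
      · rw [if_pos h2, if_pos h2'] at hee
        rw [h2, h2', hee]
      · rw [if_pos h2, if_neg h2'] at hee
        rw [h2, hee, hev'.resolve_left h2']
        exact Sym2.eq_swap
      · rw [if_neg h2, if_pos h2'] at hee
        rw [h2', ← hee, hev.resolve_left h2]
        exact Sym2.eq_swap
      · rw [if_neg h2, if_neg h2'] at hee
        rw [hee, hev.resolve_left h2, hev'.resolve_left h2']
  have hgr : gr (ini, ter) = T := by
    unfold gr
    have h1 : (Set.range fun e => s((ini, ter).1 e, (ini, ter).2 e)) = T.edgeSet := by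
      ext x
      constructor
      · rintro ⟨e, rfl⟩
        show s(ini e, ter e) ∈ T.edgeSet
        rw [he e]
        exact e.2
      · intro hx
        exact ⟨⟨x, hx⟩, he ⟨x, hx⟩⟩
    rw [h1, SimpleGraph.fromEdgeSet_edgeSet]
  have hTr : Tr (ini, ter) := by
    apply tr_of_connected
    rw [hgr]
    exact hT.connected
  have hF : ∀ C : Finset T.edgeSet, C.Nonempty → C.card + 1 ≤ (ends ini ter C).card :=
    fun C hC => forest_ends (ini, ter) (by rw [hcard, Fintype.card_fin]) hTr C hC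
  refine (fixed hn ini ter hcard hne hF).trans ?_
  apply mul_le_mul_of_nonneg_right _ (Nat.cast_nonneg _)
  apply div_le_div_of_nonneg_right _ (by positivity)
  apply mul_le_mul_of_nonneg_left _ (by positivity)
  refine Finset.sum_le_sum fun v _ => ?_
  exact pow_le_pow_left₀ (Nat.cast_nonneg _) (by exact_mod_cast hdeg v) 7

/-- counting labelled oriented trees by their underlying oriented tree -/
lemma count_LOT {n : ℕ} [Nonempty (Fin n)] {E : Type} [Fintype E] [DecidableEq E]
    (hE : Fintype.card E + 1 = n) (Q : LOG (Fin n) E → Prop) :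
    {L : LOG (Fin n) E | (gr (L.ini, L.ter)).IsTree ∧ Q L}.ncard =
      ∑ p ∈ TT E (Fin n), {lab : E → Fin n | Q ⟨p.1, p.2, lab⟩}.ncard := by
  classical
  have h1 : ∀ p : (E → Fin n) × (E → Fin n), {lab : E → Fin n | Q ⟨p.1, p.2, lab⟩}.ncard =
      (univ.filter (fun lab : E → Fin n => Q ⟨p.1, p.2, lab⟩)).card := by
    intro p
    rw [← Set.ncard_coe_finset]
    congr 1
    ext lab
    simp
  rw [sum_congr rfl (fun p _ => h1 p), ← card_sigma]
  have h2 : {L : LOG (Fin n) E | (gr (L.ini, L.ter)).IsTree ∧ Q L} =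
      (fun x : (Σ _ : (E → Fin n) × (E → Fin n), (E → Fin n)) =>
        (⟨x.1.1, x.1.2, x.2⟩ : LOG (Fin n) E)) ''
      (((TT E (Fin n)).sigma (fun p => univ.filter (fun lab : E → Fin n => Q ⟨p.1, p.2, lab⟩)) :
        Finset (Σ _ : (E → Fin n) × (E → Fin n), (E → Fin n))) :
          Set (Σ _ : (E → Fin n) × (E → Fin n), (E → Fin n))) := by
    ext L
    rw [Set.mem_image, Set.mem_setOf_eq, tr_iff_tree (L.ini, L.ter) (by rw [hE, Fintype.card_fin])]
    constructor
    · rintro ⟨h3, h4⟩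
      refine ⟨⟨(L.ini, L.ter), L.lab⟩, ?_, rfl⟩
      rw [mem_coe, mem_sigma, mem_TT, mem_filter]
      exact ⟨h3, mem_univ _, h4⟩
    · rintro ⟨x, hx, rfl⟩
      rw [mem_coe, mem_sigma, mem_TT, mem_filter] at hx
      exact ⟨hx.1, hx.2.2⟩
  rw [h2, Set.ncard_image_of_injective, Set.ncard_coe_finset]
  rintro ⟨⟨a, b⟩, c⟩ ⟨⟨a', b'⟩, c'⟩ h
  simp only [LOG.mk.injEq] at h
  obtain ⟨rfl, rfl, rfl⟩ := h
  rfl

/-- almost all labelled oriented trees are diagrammatically reducible -/
theorem all_trees (n : ℕ) (hn : 3 ≤ n) :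
    ({L : LOG (Fin n) (Fin (n - 1)) | (gr (L.ini, L.ter)).IsTree ∧ (L.Compressed ∧
      ¬ DR L.rel)}.ncard : ℝ) ≤
    10 ^ 20 / n *
      ({L : LOG (Fin n) (Fin (n - 1)) | (gr (L.ini, L.ter)).IsTree ∧ L.Compressed}.ncard : ℝ) := by
  classical
  have : Nonempty (Fin n) := ⟨⟨0, by omega⟩⟩
  have hE : Fintype.card (Fin (n - 1)) + 1 = n := by
    rw [Fintype.card_fin]
    omega
  have hE' : Fintype.card (Fin (n - 1)) + 1 = Fintype.card (Fin n) := by
    rw [hE, Fintype.card_fin]
  have hn' : (3 : ℝ) ≤ n := by exact_mod_cast hn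
  have hn0 : (0 : ℝ) < n := by linarith
  rw [count_LOT hE (fun L => L.Compressed ∧ ¬ DR L.rel), count_LOT hE (fun L => L.Compressed)]
  have hgood : ∀ p ∈ TT (Fin (n - 1)) (Fin n),
      {lab : Fin (n - 1) → Fin n | (⟨p.1, p.2, lab⟩ : LOG (Fin n) (Fin (n - 1))).Compressed}.ncard =
        (n - 2) ^ (n - 1) := by
    intro p hp
    rw [mem_TT] at hp
    exact card_compressed p.1 p.2 hE (fun e => no_loop p hE' hp e)
  rw [sum_congr rfl hgood, sum_const, smul_eq_mul]
  have hbad : ∀ p ∈ TT (Fin (n - 1)) (Fin n),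
      ({lab : Fin (n - 1) → Fin n | (⟨p.1, p.2, lab⟩ : LOG (Fin n) (Fin (n - 1))).Compressed ∧
        ¬ DR (⟨p.1, p.2, lab⟩ : LOG (Fin n) (Fin (n - 1))).rel}.ncard : ℝ) ≤
      10 ^ 15 * (∑ v : Fin n, (dg p.1 p.2 v : ℝ) ^ 7) / (n : ℝ) ^ 2 *
        (((n - 2) ^ (n - 1) : ℕ) : ℝ) := by
    intro p hp
    rw [← hgood p hp]
    rw [mem_TT] at hp
    exact fixed hn p.1 p.2 hE (fun e => no_loop p hE' hp e) (fun C hC => forest_ends p hE' hp C hC)
  have hmom : ∑ p ∈ TT (Fin (n - 1)) (Fin n), ∑ v : Fin n, (dg p.1 p.2 v : ℝ) ^ 7 ≤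
      44959 * n * ((TT (Fin (n - 1)) (Fin n)).card : ℝ) := by
    rw [sum_comm]
    have h1 : ∀ v ∈ (univ : Finset (Fin n)), ∑ p ∈ TT (Fin (n - 1)) (Fin n), (dg p.1 p.2 v : ℝ) ^ 7 ≤
        44959 * ((TT (Fin (n - 1)) (Fin n)).card : ℝ) := by
      intro v _
      have := moment_seven (E := Fin (n - 1)) (V := Fin n) hE' (by rw [Fintype.card_fin]; omega) v
      exact_mod_cast this
    refine (sum_le_sum h1).trans ?_
    rw [sum_const, card_univ, Fintype.card_fin, nsmul_eq_mul]
    exact le_of_eq (by ring)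
  obtain ⟨N, hN⟩ : ∃ N : ℝ, N = (((n - 2) ^ (n - 1) : ℕ) : ℝ) := ⟨_, rfl⟩
  have hN0 : 0 ≤ N := by rw [hN]; positivity
  obtain ⟨t, ht⟩ : ∃ t : ℝ, t = ((TT (Fin (n - 1)) (Fin n)).card : ℝ) := ⟨_, rfl⟩
  have ht0 : 0 ≤ t := by rw [ht]; positivity
  rw [← ht] at hmom
  rw [Nat.cast_sum, Nat.cast_mul, ← hN, ← ht]
  rw [← hN] at hbad
  calc _ ≤ ∑ p ∈ TT (Fin (n - 1)) (Fin n),
        10 ^ 15 * (∑ v : Fin n, (dg p.1 p.2 v : ℝ) ^ 7) / (n : ℝ) ^ 2 * N := sum_le_sum hbad
    _ = (10 ^ 15 / (n : ℝ) ^ 2 * N) *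
          ∑ p ∈ TT (Fin (n - 1)) (Fin n), ∑ v : Fin n, (dg p.1 p.2 v : ℝ) ^ 7 := by
        rw [mul_sum]
        refine sum_congr rfl fun p _ => ?_
        ring
    _ ≤ (10 ^ 15 / (n : ℝ) ^ 2 * N) * (44959 * n * t) :=
        mul_le_mul_of_nonneg_left hmom (by positivity)
    _ = (44959 * 10 ^ 15) / n * (t * N) := by
        field_simp
    _ ≤ 10 ^ 20 / n * (t * N) := by
        apply mul_le_mul_of_nonneg_right _ (mul_nonneg ht0 hN0)
        apply div_le_div_of_nonneg_right _ hn0.le
        norm_num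

end Pool.Agent.TH22.LT
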