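import Mathlib

/-!
# Random labellings with forbidden values, conflicts and prescribed used values
-/

set_option autoImplicit false

namespace Pool.Agent.TH22.LT

open Finset

variable {V E : Type} [DecidableEq V] [DecidableEq E] [Fintype V] [Fintype E]

/-- the labelling avoids the forbidden values and the conflicts, and uses all elements of `B` -/
def Ok (Fb : E → Finset V) (cf : E → E → Prop) (B : Finset V) (lab : E → V) : Prop :=
  (∀ e, lab e ∉ Fb e) ∧ (∀ e f, e ≠ f → cf e f → lab e ≠ lab f) ∧ ∀ b ∈ B, ∃ e, lab e = b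

open Classical in
/-- the labellings which agree with `g` on `F` -/
noncomputable def Om (Fb : E → Finset V) (cf : E → E → Prop) (B : Finset V) (F : Finset E)
    (g : E → V) : Finset (E → V) :=
  univ.filter (fun lab => Ok Fb cf B lab ∧ ∀ f ∈ F, lab f = g f)

lemma mem_Om (Fb : E → Finset V) (cf : E → E → Prop) (B : Finset V) (F : Finset E)
    (g : E → V) (lab : E → V) :
    lab ∈ Om Fb cf B F g ↔ Ok Fb cf B lab ∧ ∀ f ∈ F, lab f = g f := by
  classical
  simp [Om]

open Classical in
/-- values which are not possible at `e` -/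
noncomputable def YY (Fb : E → Finset V) (cf : E → E → Prop) (lab : E → V) (e : E) : Finset V :=
  Fb e ∪ (univ.filter (fun g => g ≠ e ∧ cf e g)).image lab

lemma mem_YY (Fb : E → Finset V) (cf : E → E → Prop) (lab : E → V) (e : E) (y : V) :
    y ∈ YY Fb cf lab e ↔ y ∈ Fb e ∨ ∃ g, g ≠ e ∧ cf e g ∧ lab g = y := by
  classical
  simp [YY, and_assoc]

open Classical in
lemma card_YY (Fb : E → Finset V) (cf : E → E → Prop) (D : ℕ)
    (hD : ∀ e, (Fb e).card + (univ.filter (fun g => g ≠ e ∧ cf e g)).card ≤ D)
    (lab : E → V) (e : E) : (YY Fb cf lab e).card ≤ D := by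
  unfold YY
  refine (card_union_le _ _).trans ((Nat.add_le_add_left card_image_le _).trans ?_)
  convert hD e

/-- changing one label, when the old label is not needed -/
lemma step_a (Fb : E → Finset V) (cf : E → E → Prop) (hsym : ∀ e f, cf e f → cf f e)
    (B : Finset V) (D : ℕ) (hD : ∀ (lab : E → V) e, (YY Fb cf lab e).card ≤ D)
    (F : Finset E) (g : E → V) (e : E) (he : e ∉ F) (x : V) (Oa : Finset (E → V))
    (hOa : ∀ lab ∈ Oa, lab ∈ Om Fb cf B F g ∧ lab e = x ∧ (x ∉ B ∨ ∃ f, f ≠ e ∧ lab f = x)) :
    Oa.card * (Fintype.card V - D) ≤ (Om Fb cf B F g).card := by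
  classical
  have h1 : Oa.card * (Fintype.card V - D) ≤
      (Oa.sigma (fun lab => univ \ YY Fb cf lab e)).card := by
    rw [card_sigma, ← smul_eq_mul, ← sum_const]
    refine sum_le_sum fun lab _ => ?_
    rw [card_sdiff_of_subset (subset_univ _), card_univ]
    exact Nat.sub_le_sub_left (hD lab e) _
  refine h1.trans ?_
  apply card_le_card_of_injOn (fun p => Function.update p.1 e p.2)
  · rintro ⟨lab, z⟩ hp
    rw [mem_coe, mem_sigma, mem_sdiff] at hp
    obtain ⟨hl, -, hz⟩ := hp
    obtain ⟨hO, hx, hcase⟩ := hOa lab hl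
    rw [mem_Om] at hO
    obtain ⟨⟨k1, k2, k3⟩, k4⟩ := hO
    rw [mem_YY] at hz
    push Not at hz
    obtain ⟨z1, z2⟩ := hz
    rw [mem_coe, mem_Om]
    simp only at hx z1 z2 ⊢
    refine ⟨⟨?_, ?_, ?_⟩, ?_⟩
    · intro f
      by_cases h : f = e
      · rw [h, Function.update_self]
        exact z1
      · rw [Function.update_of_ne h]
        exact k1 f
    · intro a b hab hc
      by_cases ha : a = e
      · subst ha
        rw [Function.update_self, Function.update_of_ne hab.symm]
        exact fun h => z2 b hab.symm hc h.symm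
      · by_cases hb : b = e
        · subst hb
          rw [Function.update_self, Function.update_of_ne hab]
          exact fun h => z2 a hab (hsym _ _ hc) h
        · rw [Function.update_of_ne ha, Function.update_of_ne hb]
          exact k2 a b hab hc
    · intro b hb
      obtain ⟨f, hf⟩ := k3 b hb
      by_cases h : f = e
      · rw [h, hx] at hf
        rcases hcase with h' | ⟨f', h1, h2⟩
        · exact absurd (hf ▸ hb) h'
        · exact ⟨f', by rw [Function.update_of_ne h1, h2, hf]⟩
      · exact ⟨f, by rw [Function.update_of_ne h, hf]⟩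
    · intro f hf
      have : f ≠ e := fun h => he (h ▸ hf)
      rw [Function.update_of_ne this]
      exact k4 f hf
  · rintro ⟨lab, z⟩ hp ⟨lab', z'⟩ hp' h
    rw [mem_coe, mem_sigma] at hp hp'
    have hx := (hOa lab hp.1).2.1
    have hx' := (hOa lab' hp'.1).2.1
    simp only at hx hx' h
    have hz : z = z' := by
      have := congrFun h e
      simpa using this
    have hl : lab = lab' := by
      funext f
      by_cases hf : f = e
      · rw [hf, hx, hx']
      · have := congrFun h f
        rwa [Function.update_of_ne hf, Function.update_of_ne hf] at this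
    rw [hl, hz]

/-- changing one label, when it is the only edge with this label and this label is needed -/
lemma step_b (Fb : E → Finset V) (cf : E → E → Prop) (hsym : ∀ e f, cf e f → cf f e)
    (B : Finset V) (D : ℕ) (hD : ∀ (lab : E → V) e, (YY Fb cf lab e).card ≤ D)
    (hD2 : ∀ x, (univ.filter (fun f => x ∈ Fb f)).card ≤ D)
    (F : Finset E) (g : E → V) (e : E) (he : e ∉ F) (x : V) (Ob : Finset (E → V))
    (hOb : ∀ lab ∈ Ob, lab ∈ Om Fb cf B F g ∧ lab e = x ∧ ∀ f, f ≠ e → lab f ≠ x) :
    Ob.card * ((Fintype.card E - (1 + F.card + D + D)) * (Fintype.card V - (D + 1))) ≤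
      2 * Fintype.card V * (Om Fb cf B F g).card := by
  classical
  obtain ⟨G, hG⟩ : ∃ G : (E → V) → Finset E, G = fun lab => univ.filter (fun f => f ≠ e ∧ f ∉ F ∧
    x ∉ Fb f ∧ ((∃ f', f' ≠ f ∧ lab f' = lab f) ∨ lab f ∉ YY Fb cf lab e)) := ⟨_, rfl⟩
  have hGm : ∀ lab f, f ∈ G lab ↔ f ≠ e ∧ f ∉ F ∧
    x ∉ Fb f ∧ ((∃ f', f' ≠ f ∧ lab f' = lab f) ∨ lab f ∉ YY Fb cf lab e) := by
    intro lab f
    rw [hG]
    simp
  have hGc : ∀ lab, Fintype.card E - (1 + F.card + D + D) ≤ (G lab).card := by
    intro lab
    have h1 : (univ : Finset E) ⊆ G lab ∪ ((({e} ∪ F) ∪ univ.filter (fun f => x ∈ Fb f)) ∪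
        univ.filter (fun f => (∀ f', f' ≠ f → lab f' ≠ lab f) ∧ lab f ∈ YY Fb cf lab e)) := by
      intro f _
      by_cases hf : f ∈ G lab
      · exact mem_union_left _ hf
      · apply mem_union_right
        rw [hGm] at hf
        simp only [mem_union, mem_singleton, mem_filter, mem_univ, true_and]
        by_contra hcon
        push Not at hcon
        obtain ⟨⟨⟨c1, c2⟩, c3⟩, c4⟩ := hcon
        apply hf
        refine ⟨c1, c2, c3, ?_⟩
        by_contra hcon2
        push Not at hcon2
        exact c4 hcon2.1 hcon2.2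
    have h2 := card_le_card h1
    rw [card_univ] at h2
    have h3 : (univ.filter (fun f => (∀ f', f' ≠ f → lab f' ≠ lab f) ∧
        lab f ∈ YY Fb cf lab e)).card ≤ D := by
      refine le_trans (card_le_card_of_injOn lab ?_ ?_) (hD lab e)
      · intro f hf
        rw [mem_coe, mem_filter] at hf
        exact mem_coe.2 hf.2.2
      · intro a ha b hb hab
        rw [mem_coe, mem_filter] at ha hb
        by_contra hne
        exact hb.2.1 a hne hab
    have h4 := card_union_le (G lab) ((({e} ∪ F) ∪ univ.filter (fun f => x ∈ Fb f)) ∪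
        univ.filter (fun f => (∀ f', f' ≠ f → lab f' ≠ lab f) ∧ lab f ∈ YY Fb cf lab e))
    have h5 := card_union_le (({e} ∪ F) ∪ univ.filter (fun f => x ∈ Fb f))
      (univ.filter (fun f => (∀ f', f' ≠ f → lab f' ≠ lab f) ∧ lab f ∈ YY Fb cf lab e))
    have h6 := card_union_le ({e} ∪ F) (univ.filter (fun f => x ∈ Fb f))
    have h7 := card_union_le {e} F
    rw [card_singleton] at h7
    have h8 := hD2 x
    omega
  have h1 : Ob.card * ((Fintype.card E - (1 + F.card + D + D)) * (Fintype.card V - (D + 1))) ≤
      (Ob.sigma (fun lab => G lab ×ˢ (univ \ insert x (YY Fb cf lab e)))).card := by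
    rw [card_sigma, ← smul_eq_mul, ← sum_const]
    refine sum_le_sum fun lab _ => ?_
    rw [card_product, card_sdiff_of_subset (subset_univ _), card_univ]
    apply Nat.mul_le_mul (hGc lab)
    apply Nat.sub_le_sub_left
    exact (card_insert_le _ _).trans (Nat.add_le_add_right (hD lab e) 1)
  refine h1.trans ?_
  have h2 : 2 * Fintype.card V * (Om Fb cf B F g).card =
      ((Om Fb cf B F g) ×ˢ (univ : Finset (V × Bool))).card := by
    rw [card_product, card_univ, Fintype.card_prod, Fintype.card_bool]
    ring
  rw [h2]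
  obtain ⟨u, hu⟩ : ∃ u : (E → V) → E → Prop, u = fun lab f => ∃ f', f' ≠ f ∧ lab f' = lab f := ⟨_, rfl⟩
  have hnext : ∀ (lab : E → V) (f : E) (w : V), lab ∈ Ob → f ∈ G lab → w ∉ YY Fb cf lab e → w ≠ x →
      (w = lab f ∨ u lab f) →
      Function.update (Function.update lab f x) e w ∈ Om Fb cf B F g := by
    intro lab f w hl hf hw hwx hor
    obtain ⟨hO, hx, hun⟩ := hOb lab hl
    rw [mem_Om] at hO ⊢
    obtain ⟨⟨k1, k2, k3⟩, k4⟩ := hO
    rw [hGm] at hf
    obtain ⟨f1, f2, f3, -⟩ := hf
    rw [mem_YY] at hw
    push Not at hw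
    obtain ⟨z1, z2⟩ := hw
    have v1 : Function.update (Function.update lab f x) e w e = w := Function.update_self _ _ _
    have v2 : Function.update (Function.update lab f x) e w f = x := by
      rw [Function.update_of_ne f1, Function.update_self]
    have v3 : ∀ a, a ≠ e → a ≠ f → Function.update (Function.update lab f x) e w a = lab a := by
      intro a ha hb
      rw [Function.update_of_ne ha, Function.update_of_ne hb]
    have main : ∀ a b, a ≠ b → cf a b → (a = e ∨ (a = f ∧ b ≠ e) ∨ (a ≠ e ∧ a ≠ f ∧ b ≠ e ∧ b ≠ f)) →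
        Function.update (Function.update lab f x) e w a ≠
          Function.update (Function.update lab f x) e w b := by
      intro a b hab hc hcase
      rcases hcase with ha | ⟨ha, hb⟩ | ⟨ha, ha', hb, hb'⟩
      · subst ha
        rw [v1]
        by_cases hb : b = f
        · rw [hb, v2]
          exact hwx
        · rw [v3 b hab.symm hb]
          exact fun h => z2 b hab.symm hc h.symm
      · subst ha
        rw [v2, v3 b hb hab.symm]
        exact (hun b hb).symm
      · rw [v3 a ha ha', v3 b hb hb']
        exact k2 a b hab hc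
    refine ⟨⟨?_, ?_, ?_⟩, ?_⟩
    · intro a
      by_cases ha : a = e
      · rw [ha, v1]
        exact z1
      · by_cases hb : a = f
        · rw [hb, v2]
          exact f3
        · rw [v3 a ha hb]
          exact k1 a
    · intro a b hab hc
      by_cases ha : a = e
      · exact main a b hab hc (Or.inl ha)
      · by_cases hb : b = e
        · exact (main b a hab.symm (hsym _ _ hc) (Or.inl hb)).symm
        · by_cases ha' : a = f
          · exact main a b hab hc (Or.inr (Or.inl ⟨ha', hb⟩))
          · by_cases hb' : b = f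
            · exact (main b a hab.symm (hsym _ _ hc) (Or.inr (Or.inl ⟨hb', ha⟩))).symm
            · exact main a b hab hc (Or.inr (Or.inr ⟨ha, ha', hb, hb'⟩))
    · intro b hb
      obtain ⟨a, ha⟩ := k3 b hb
      by_cases hae : a = e
      · rw [hae, hx] at ha
        exact ⟨f, by rw [v2, ha]⟩
      · by_cases haf : a = f
        · rcases hor with hw' | hor
          · exact ⟨e, by rw [v1, hw', ← haf, ha]⟩
          · rw [hu] at hor
            obtain ⟨f', h1, h2⟩ := hor
            have hf'e : f' ≠ e := by
              rintro rfl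
              rw [hx] at h2
              exact hun f f1 h2.symm
            exact ⟨f', by rw [v3 f' hf'e h1, h2, ← haf, ha]⟩
        · exact ⟨a, by rw [v3 a hae haf, ha]⟩
    · intro a ha
      have h1 : a ≠ e := fun h => he (h ▸ ha)
      have h2 : a ≠ f := fun h => f2 (h ▸ ha)
      rw [v3 a h1 h2]
      exact k4 a ha
  apply card_le_card_of_injOn (fun p : (Σ _ : E → V, E × V) =>
    if u p.1 p.2.1 then (Function.update (Function.update p.1 p.2.1 x) e p.2.2, (p.1 p.2.1, true))
      else (Function.update (Function.update p.1 p.2.1 x) e (p.1 p.2.1), (p.2.2, false)))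
  · rintro ⟨lab, f, z⟩ hp
    rw [mem_coe, mem_sigma, mem_product, mem_sdiff, mem_insert] at hp
    obtain ⟨hl, hf, -, hz⟩ := hp
    push Not at hz
    simp only at hl hf hz
    rw [mem_coe, mem_product]
    refine ⟨?_, mem_univ _⟩
    simp only
    by_cases hc : u lab f
    · rw [if_pos hc]
      exact hnext lab f z hl hf hz.2 hz.1 (Or.inr hc)
    · rw [if_neg hc]
      have hf' := (hGm lab f).1 hf
      refine hnext lab f (lab f) hl hf ?_ ((hOb lab hl).2.2 f hf'.1) (Or.inl rfl)
      rcases hf'.2.2.2 with h | h
      · exact absurd (by rw [hu]; exact h) hc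
      · exact h
  · rintro ⟨lab, f, z⟩ hp ⟨lab', f', z'⟩ hp' h
    rw [mem_coe, mem_sigma, mem_product, mem_sdiff, mem_insert] at hp hp'
    obtain ⟨hl, hf, -, hz⟩ := hp
    obtain ⟨hl', hf', -, hz'⟩ := hp'
    push Not at hz hz'
    simp only at hl hf hz hl' hf' hz' h
    obtain ⟨-, hx, hun⟩ := hOb lab hl
    obtain ⟨-, hx', hun'⟩ := hOb lab' hl'
    rw [hGm] at hf hf'
    have hfe := hf.1
    have hfe' := hf'.1
    -- the values of the new labelling
    have key : ∀ w w' : V, w ≠ x → w' ≠ x →
        Function.update (Function.update lab f x) e w =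
          Function.update (Function.update lab' f' x) e w' →
        f = f' ∧ w = w' ∧ ∀ a, a ≠ e → a ≠ f → lab a = lab' a := by
      intro w w' hw hw' hh
      have hff : f = f' := by
        by_contra hne
        have h1 := congrFun hh f
        rw [Function.update_of_ne hfe, Function.update_self, Function.update_of_ne hfe,
          Function.update_of_ne hne] at h1
        exact hun' f hfe h1.symm
      subst hff
      refine ⟨rfl, ?_, ?_⟩
      · have h1 := congrFun hh e
        rwa [Function.update_self, Function.update_self] at h1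
      · intro a ha ha'
        have h1 := congrFun hh a
        rwa [Function.update_of_ne ha, Function.update_of_ne ha', Function.update_of_ne ha,
          Function.update_of_ne ha'] at h1
    by_cases hc : u lab f <;> by_cases hc' : u lab' f'
    · rw [if_pos hc, if_pos hc', Prod.mk.injEq, Prod.mk.injEq] at h
      obtain ⟨h1, h2, -⟩ := h
      obtain ⟨k1, k2, k3⟩ := key z z' hz.1 hz'.1 h1
      subst k1
      have : lab = lab' := by
        funext a
        by_cases ha : a = e
        · rw [ha, hx, hx']
        · by_cases hb : a = f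
          · rw [hb, h2]
          · exact k3 a ha hb
      rw [this, k2]
    · rw [if_pos hc, if_neg hc', Prod.mk.injEq, Prod.mk.injEq] at h
      exact absurd h.2.2 (by decide)
    · rw [if_neg hc, if_pos hc', Prod.mk.injEq, Prod.mk.injEq] at h
      exact absurd h.2.2 (by decide)
    · rw [if_neg hc, if_neg hc', Prod.mk.injEq, Prod.mk.injEq] at h
      obtain ⟨h1, h2, -⟩ := h
      obtain ⟨k1, k2, k3⟩ := key (lab f) (lab' f') (hun f hfe) (hun' f' hfe') h1
      subst k1
      have : lab = lab' := by
        funext a
        by_cases ha : a = e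
        · rw [ha, hx, hx']
        · by_cases hb : a = f
          · rw [hb, k2]
          · exact k3 a ha hb
      rw [this, h2]

end Pool.Agent.TH22.LT
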