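import Pool.Agent.TH22.LT.M5

/-!
# Coincidences among the labels of few edges
-/

set_option autoImplicit false

namespace Pool.Agent.TH22.LT

open Finset

variable {V E : Type} [DecidableEq V] [DecidableEq E] [Fintype V] [Fintype E]

/-- the hypotheses on the forbidden values and conflicts -/
structure Hyp (Fb : E → Finset V) (cf : E → E → Prop) (D : ℕ) : Prop where
  sym : ∀ e f, cf e f → cf f e
  h1 : ∀ (lab : E → V) e, (YY Fb cf lab e).card ≤ D
  h2 : ∀ x, (univ.filter (fun f => x ∈ Fb f)).card ≤ D
  hE : Fintype.card E + 1 = Fintype.card V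
  hn : 1000 ≤ Fintype.card V
  hD : 32 * D ≤ Fintype.card V

lemma one_step {Fb : E → Finset V} {cf : E → E → Prop} {D : ℕ} (H : Hyp Fb cf D) (B : Finset V)
    (F : Finset E) (hF : F.card ≤ 7) (g : E → V) (e : E) (he : e ∉ F) (x : V) :
    (((Om Fb cf B F g).filter (fun lab => lab e = x)).card : ℝ) * Fintype.card V ≤
      4 * ((Om Fb cf B F g).card : ℝ) := by
  classical
  obtain ⟨Oa, hOa⟩ : ∃ Oa : Finset (E → V), Oa = (Om Fb cf B F g).filter
    (fun lab => lab e = x ∧ (x ∉ B ∨ ∃ f, f ≠ e ∧ lab f = x)) := ⟨_, rfl⟩
  obtain ⟨Ob, hOb⟩ : ∃ Ob : Finset (E → V), Ob = (Om Fb cf B F g).filter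
    (fun lab => lab e = x ∧ ∀ f, f ≠ e → lab f ≠ x) := ⟨_, rfl⟩
  have h0 : ((Om Fb cf B F g).filter (fun lab => lab e = x)).card ≤ Oa.card + Ob.card := by
    refine le_trans (card_le_card ?_) (card_union_le _ _)
    intro lab hl
    rw [mem_filter] at hl
    rw [mem_union, hOa, hOb, mem_filter, mem_filter]
    by_cases h : ∃ f, f ≠ e ∧ lab f = x
    · exact Or.inl ⟨hl.1, hl.2, Or.inr h⟩
    · push Not at h
      exact Or.inr ⟨hl.1, hl.2, h⟩
  have ha := step_a Fb cf H.sym B D H.h1 F g e he x Oa (by
    intro lab hl
    rw [hOa, mem_filter] at hl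
    exact ⟨hl.1, hl.2.1, hl.2.2⟩)
  have hb := step_b Fb cf H.sym B D H.h1 H.h2 F g e he x Ob (by
    intro lab hl
    rw [hOb, mem_filter] at hl
    exact ⟨hl.1, hl.2.1, hl.2.2⟩)
  have hE := H.hE
  have hn := H.hn
  have hD := H.hD
  obtain ⟨n, hnn⟩ : ∃ n : ℕ, n = Fintype.card V := ⟨_, rfl⟩
  obtain ⟨W, hW⟩ : ∃ W : ℕ, W = (Om Fb cf B F g).card := ⟨_, rfl⟩
  rw [← hnn] at ha hb hE hn hD ⊢
  rw [← hW] at ha hb ⊢
  have q1 : 31 * n ≤ 32 * (n - D) := by omega
  have q2 : 9 * n ≤ 10 * (Fintype.card E - (1 + F.card + D + D)) := by omega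
  have q3 : 9 * n ≤ 10 * (n - (D + 1)) := by omega
  have ha' : (31 : ℝ) * n * Oa.card ≤ 32 * W := by
    have : 31 * n * Oa.card ≤ 32 * W := by nlinarith
    exact_mod_cast this
  have hb1 : (9 * n) * (9 * n) * Ob.card ≤ 200 * n * W := by
    have h1 : (9 * n) * (9 * n) ≤ (10 * (Fintype.card E - (1 + F.card + D + D))) *
        (10 * (n - (D + 1))) := Nat.mul_le_mul q2 q3
    calc (9 * n) * (9 * n) * Ob.card
        ≤ ((10 * (Fintype.card E - (1 + F.card + D + D))) * (10 * (n - (D + 1)))) * Ob.card :=
          Nat.mul_le_mul_right _ h1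
      _ = 100 * (Ob.card * ((Fintype.card E - (1 + F.card + D + D)) * (n - (D + 1)))) := by ring
      _ ≤ 100 * (2 * n * W) := Nat.mul_le_mul_left _ hb
      _ = _ := by ring
  have hn0 : (0 : ℝ) < n := by
    have : 0 < n := by omega
    exact_mod_cast this
  have hb' : (81 : ℝ) * n * Ob.card ≤ 200 * W := by
    have h1 : (9 * n : ℝ) * (9 * n) * Ob.card ≤ 200 * n * W := by exact_mod_cast hb1
    have h2 : (n : ℝ) * (81 * n * Ob.card) ≤ n * (200 * W) := by
      calc (n : ℝ) * (81 * n * Ob.card) = (9 * n : ℝ) * (9 * n) * Ob.card := by ring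
        _ ≤ 200 * n * W := h1
        _ = _ := by ring
    exact le_of_mul_le_mul_left h2 hn0
  have h0' : (((Om Fb cf B F g).filter (fun lab => lab e = x)).card : ℝ) ≤ Oa.card + Ob.card := by
    exact_mod_cast h0
  have hW0 : (0 : ℝ) ≤ W := Nat.cast_nonneg _
  have h3 := mul_le_mul_of_nonneg_right h0' hn0.le
  nlinarith

/-- number of coincidences -/
def co (lab : E → V) : Finset V → List E → ℕ
  | _, [] => 0
  | X, e :: l => if lab e ∈ X then co lab X l + 1 else co lab (insert (lab e) X) l

lemma card_co (lab : E → V) : ∀ (l : List E) (X : Finset V),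
    (X ∪ (l.map lab).toFinset).card + co lab X l = X.card + l.length := by
  intro l
  induction l with
  | nil =>
    intro X
    simp [co]
  | cons e l ih =>
    intro X
    rw [List.map_cons, List.toFinset_cons, List.length_cons]
    by_cases h : lab e ∈ X
    · have h1 : X ∪ insert (lab e) (l.map lab).toFinset = X ∪ (l.map lab).toFinset := by
        ext y
        simp only [mem_union, mem_insert]
        constructor
        · rintro (h' | h' | h')
          · exact Or.inl h'
          · exact Or.inl (h' ▸ h)
          · exact Or.inr h'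
        · rintro (h' | h')
          · exact Or.inl h'
          · exact Or.inr (Or.inr h')
      have h2 := ih X
      rw [h1]
      simp only [co, if_pos h]
      omega
    · have h1 : X ∪ insert (lab e) (l.map lab).toFinset =
          insert (lab e) X ∪ (l.map lab).toFinset := by
        ext y
        simp only [mem_union, mem_insert]
        tauto
      have h2 := ih (insert (lab e) X)
      rw [card_insert_of_notMem h] at h2
      rw [h1]
      simp only [co, if_neg h]
      omega

lemma Om_insert (Fb : E → Finset V) (cf : E → E → Prop) (B : Finset V) (F : Finset E)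
    (g : E → V) (e : E) (he : e ∉ F) (y : V) :
    Om Fb cf B (insert e F) (Function.update g e y) =
      (Om Fb cf B F g).filter (fun lab => lab e = y) := by
  ext lab
  rw [mem_Om, mem_filter, mem_Om]
  constructor
  · rintro ⟨h1, h2⟩
    refine ⟨⟨h1, ?_⟩, ?_⟩
    · intro f hf
      have h3 := h2 f (mem_insert_of_mem hf)
      have : f ≠ e := fun h => he (h ▸ hf)
      rwa [Function.update_of_ne this] at h3
    · have h3 := h2 e (mem_insert_self _ _)
      rwa [Function.update_self] at h3
  · rintro ⟨⟨h1, h2⟩, h3⟩
    refine ⟨h1, ?_⟩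
    intro f hf
    by_cases h : f = e
    · rw [h, Function.update_self, h3]
    · rw [Function.update_of_ne h]
      exact h2 f ((mem_insert.1 hf).resolve_left h)

/-- many coincidences are rare -/
lemma seq {Fb : E → Finset V} {cf : E → E → Prop} {D : ℕ} (H : Hyp Fb cf D) (B : Finset V) :
    ∀ (l : List E), l.Nodup → ∀ (F : Finset E), (∀ e ∈ l, e ∉ F) → F.card + l.length ≤ 8 →
    ∀ (g : E → V) (X : Finset V) (r : ℕ),
      (((Om Fb cf B F g).filter (fun lab => r ≤ co lab X l)).card : ℝ) * (Fintype.card V : ℝ) ^ r ≤
        2 ^ l.length * (4 * ((X.card : ℝ) + l.length)) ^ r * ((Om Fb cf B F g).card : ℝ) := by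
  classical
  intro l
  induction l with
  | nil =>
    intro _ F _ _ g X r
    rcases Nat.eq_zero_or_pos r with rfl | hr
    · simp
    · have : (Om Fb cf B F g).filter (fun lab => r ≤ co lab X []) = ∅ := by
        rw [filter_eq_empty_iff]
        intro lab _
        simp only [co]
        omega
      rw [this]
      simp only [card_empty, Nat.cast_zero, zero_mul]
      positivity
  | cons e l ih =>
    intro hnd F hF hc g X r
    rw [List.nodup_cons] at hnd
    have heF : e ∉ F := hF e (List.mem_cons_self)
    rcases Nat.eq_zero_or_pos r with rfl | hr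
    · simp only [pow_zero, mul_one]
      have h1 : (((Om Fb cf B F g).filter (fun lab => 0 ≤ co lab X (e :: l))).card : ℝ) ≤
          ((Om Fb cf B F g).card : ℝ) := by
        exact_mod_cast card_filter_le _ _
      have h2 : (1 : ℝ) ≤ 2 ^ (e :: l).length := one_le_pow₀ (by norm_num)
      have h3 : (0 : ℝ) ≤ ((Om Fb cf B F g).card : ℝ) := Nat.cast_nonneg _
      nlinarith
    · obtain ⟨s, rfl⟩ : ∃ s, r = s + 1 := ⟨r - 1, by omega⟩
      rw [List.length_cons] at hc
      obtain ⟨n, hnn⟩ : ∃ n : ℝ, n = (Fintype.card V : ℝ) := ⟨_, rfl⟩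
      have hn0 : 0 ≤ n := by rw [hnn]; positivity
      obtain ⟨W, hW⟩ : ∃ W : ℝ, W = ((Om Fb cf B F g).card : ℝ) := ⟨_, rfl⟩
      have hW0 : 0 ≤ W := by rw [hW]; positivity
      obtain ⟨K, hK⟩ : ∃ K : ℝ, K = 4 * ((X.card : ℝ) + (e :: l).length) := ⟨_, rfl⟩
      have hK0 : 0 ≤ K := by rw [hK]; positivity
      have hKl : K = 4 * ((X.card : ℝ) + l.length + 1) := by
        rw [hK, List.length_cons]
        push_cast
        ring
      rw [← hK, ← hnn, ← hW]
      -- fibres
      have hfib : ((Om Fb cf B F g).filter (fun lab => s + 1 ≤ co lab X (e :: l))).card =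
          ∑ y : V, (((Om Fb cf B F g).filter (fun lab => lab e = y)).filter
            (fun lab => s + 1 ≤ co lab X (e :: l))).card := by
        rw [card_eq_sum_card_fiberwise (f := fun lab : E → V => lab e) (t := univ)]
        · refine sum_congr rfl fun y _ => ?_
          congr 1
          ext lab
          simp only [mem_filter]
          tauto
        · intro lab _
          exact mem_coe.2 (mem_univ _)
      have hsumW : ∑ y : V, (((Om Fb cf B F g).filter (fun lab => lab e = y)).card : ℝ) = W := by
        rw [hW, ← Nat.cast_sum]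
        congr 1
        rw [card_eq_sum_card_fiberwise (f := fun lab : E → V => lab e) (t := univ)]
        intro lab _
        exact mem_coe.2 (mem_univ _)
      have hy : ∀ y : V, ((((Om Fb cf B F g).filter (fun lab => lab e = y)).filter
            (fun lab => s + 1 ≤ co lab X (e :: l))).card : ℝ) * n ^ (s + 1) ≤
          (if y ∈ X then 2 ^ l.length * K ^ s * (4 * W) else 0) +
            2 ^ l.length * K ^ (s + 1) *
              (((Om Fb cf B F g).filter (fun lab => lab e = y)).card : ℝ) := by
        intro y
        have hins := Om_insert Fb cf B F g e heF y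
        have hF' : ∀ e' ∈ l, e' ∉ insert e F := by
          intro e' he' h
          rcases mem_insert.1 h with h | h
          · rw [h] at he'
            exact hnd.1 he'
          · exact hF e' (List.mem_cons_of_mem _ he') h
        have hc' : (insert e F).card + l.length ≤ 8 := by
          rw [card_insert_of_notMem heF]
          omega
        by_cases hyX : y ∈ X
        · rw [if_pos hyX]
          have h1 := ih hnd.2 (insert e F) hF' hc' (Function.update g e y) X s
          rw [hins] at h1
          have h2 : ((Om Fb cf B F g).filter (fun lab => lab e = y)).filter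
              (fun lab => s + 1 ≤ co lab X (e :: l)) =
              ((Om Fb cf B F g).filter (fun lab => lab e = y)).filter
              (fun lab => s ≤ co lab X l) := by
            apply filter_congr
            intro lab hl
            rw [mem_filter] at hl
            have : lab e ∈ X := by rw [hl.2]; exact hyX
            simp only [co, if_pos this]
            omega
          rw [h2]
          have h3 := one_step H B F (by omega) g e heF y
          rw [← hnn, ← hW] at h3
          rw [← hnn] at h1
          obtain ⟨c, hc⟩ : ∃ c : ℝ, c = ((((Om Fb cf B F g).filter (fun lab => lab e = y)).filter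
              (fun lab => s ≤ co lab X l)).card : ℝ) := ⟨_, rfl⟩
          obtain ⟨w, hw⟩ : ∃ w : ℝ, w = (((Om Fb cf B F g).filter (fun lab => lab e = y)).card : ℝ) :=
            ⟨_, rfl⟩
          rw [← hc, ← hw] at h1
          rw [← hw] at h3
          rw [← hc, ← hw]
          have hw0 : 0 ≤ w := by rw [hw]; positivity
          have h4 : (4 * ((X.card : ℝ) + l.length)) ^ s ≤ K ^ s := by
            apply pow_le_pow_left₀ (by positivity)
            rw [hKl]
            linarith
          have h5 : (0 : ℝ) ≤ 2 ^ l.length := by positivity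
          have h6 : (0 : ℝ) ≤ 2 ^ l.length * K ^ (s + 1) * w := by positivity
          calc c * n ^ (s + 1) = (c * n ^ s) * n := by ring
            _ ≤ (2 ^ l.length * (4 * ((X.card : ℝ) + l.length)) ^ s * w) * n :=
              mul_le_mul_of_nonneg_right h1 hn0
            _ ≤ (2 ^ l.length * K ^ s * w) * n := by
              apply mul_le_mul_of_nonneg_right _ hn0
              apply mul_le_mul_of_nonneg_right _ hw0
              exact mul_le_mul_of_nonneg_left h4 h5
            _ = (2 ^ l.length * K ^ s) * (w * n) := by ring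
            _ ≤ (2 ^ l.length * K ^ s) * (4 * W) :=
              mul_le_mul_of_nonneg_left h3 (by positivity)
            _ ≤ _ := by linarith
        · rw [if_neg hyX, zero_add]
          have h1 := ih hnd.2 (insert e F) hF' hc' (Function.update g e y) (insert y X) (s + 1)
          rw [hins, card_insert_of_notMem hyX] at h1
          have h2 : ((Om Fb cf B F g).filter (fun lab => lab e = y)).filter
              (fun lab => s + 1 ≤ co lab X (e :: l)) =
              ((Om Fb cf B F g).filter (fun lab => lab e = y)).filter
              (fun lab => s + 1 ≤ co lab (insert y X) l) := by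
            apply filter_congr
            intro lab hl
            rw [mem_filter] at hl
            simp only [co, hl.2, if_neg hyX]
          rw [h2]
          have h3 : 4 * (((X.card + 1 : ℕ) : ℝ) + l.length) = K := by
            rw [hKl]
            push_cast
            ring
          rw [h3, ← hnn] at h1
          exact h1
      have hsum := sum_le_sum (fun y (_ : y ∈ (univ : Finset V)) => hy y)
      rw [← sum_mul, ← Nat.cast_sum, ← hfib, sum_add_distrib, ← mul_sum, hsumW] at hsum
      refine hsum.trans ?_
      rw [← sum_filter, sum_const, nsmul_eq_mul, filter_mem_eq_inter, univ_inter]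
      have h7 : 4 * (X.card : ℝ) ≤ K := by
        rw [hKl]
        have : (0 : ℝ) ≤ (l.length : ℝ) := Nat.cast_nonneg _
        linarith
      have h8 : (0 : ℝ) ≤ 2 ^ l.length * K ^ s * W := by positivity
      calc (X.card : ℝ) * (2 ^ l.length * K ^ s * (4 * W)) + 2 ^ l.length * K ^ (s + 1) * W
          = (4 * (X.card : ℝ)) * (2 ^ l.length * K ^ s * W) + 2 ^ l.length * K ^ (s + 1) * W := by ring
        _ ≤ K * (2 ^ l.length * K ^ s * W) + 2 ^ l.length * K ^ (s + 1) * W := by
            have := mul_le_mul_of_nonneg_right h7 h8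
            linarith
        _ = 2 ^ (e :: l).length * K ^ (s + 1) * W := by
            rw [List.length_cons]
            ring

end Pool.Agent.TH22.LT
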