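import Pool.Agent.TH22.LT.M2
import Pool.Agent.TH22.LT.M6

/-!
# Restricted labellings of a tree: most are diagrammatically reducible
-/

set_option autoImplicit false

namespace Pool.Agent.TH22.LT

open Finset
open Pool.Agent.H891R2.RL
open Pool.Agent.H891R2.RL.RG2 (ends ends_insert ends_card_le)

/-- the end points of an edge -/
def Fe {V E : Type} [DecidableEq V] (ini ter : E → V) (e : E) : Finset V := {ini e, ter e}

lemma hyp_of {V E : Type} [DecidableEq V] [DecidableEq E] [Fintype V] [Fintype E]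
    (ini ter : E → V) (cf : E → E → Prop) (hsym : ∀ e f, cf e f → cf f e)
    (hcf : ∀ e f, cf e f → ini e = ini f ∨ ter e = ter f)
    (hE : Fintype.card E + 1 = Fintype.card V) (hn : 1000 ≤ Fintype.card V)
    (hd : ∀ v, 128 * dg ini ter v ≤ Fintype.card V) :
    Hyp (Fe ini ter) cf (2 + 2 * univ.sup (dg ini ter)) := by
  classical
  have hsup : ∀ v, dg ini ter v ≤ univ.sup (dg ini ter) := fun v => le_sup (mem_univ v)
  have hsup2 : 128 * univ.sup (dg ini ter) ≤ Fintype.card V := by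
    have : univ.sup (dg ini ter) ≤ Fintype.card V / 128 := by
      apply Finset.sup_le
      intro v _
      have := hd v
      omega
    omega
  refine ⟨hsym, ?_, ?_, hE, hn, by omega⟩
  · intro lab e
    apply card_YY
    intro e
    have h1 : (Fe ini ter e).card ≤ 2 := card_le_two
    have h2 : (univ.filter (fun g => g ≠ e ∧ cf e g)).card ≤
        dg ini ter (ini e) + dg ini ter (ter e) := by
      refine le_trans (card_le_card ?_) (card_union_le (univ.filter (fun f => ini f = ini e ∨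
        ter f = ini e)) (univ.filter (fun f => ini f = ter e ∨ ter f = ter e)))
      intro g hg
      rw [mem_filter] at hg
      rw [mem_union, mem_filter, mem_filter]
      rcases hcf e g hg.2.2 with h | h
      · exact Or.inl ⟨mem_univ _, Or.inl h.symm⟩
      · exact Or.inr ⟨mem_univ _, Or.inr h.symm⟩
    have h3 := hsup (ini e)
    have h4 := hsup (ter e)
    omega
  · intro x
    have h1 : (univ.filter (fun f => x ∈ Fe ini ter f)).card = dg ini ter x := by
      unfold dg Fe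
      congr 1
      ext f
      simp only [mem_filter, mem_univ, true_and, mem_insert, mem_singleton]
      exact ⟨fun h => h.imp Eq.symm Eq.symm, fun h => h.imp Eq.symm Eq.symm⟩
    rw [h1]
    have := hsup x
    omega

/-- few letters in the relators of a given set of edges -/
lemma bad_S {E : Type} [Fintype E] [DecidableEq E] {n : ℕ} (ini ter : E → Fin n)
    (cf : E → E → Prop) {D : ℕ} (H : Hyp (Fe ini ter) cf D) (B : Finset (Fin n))
    (hF : ∀ C : Finset E, C.Nonempty → C.card + 1 ≤ (ends ini ter C).card)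
    (S : Finset E) (hS : S.Nonempty) (hS7 : S.card ≤ 7) :
    (((Om (Fe ini ter) cf B ∅ ini).filter (fun lab =>
      ((⟨ini, ter, lab⟩ : LOG (Fin n) E).letters S).card < 2 * S.card)).card : ℝ) * n ≤
    2 ^ S.card * (12 * (S.card : ℝ)) ^ (S.card + 1) *
      ((n : ℝ) ^ S.card / (n : ℝ) ^ (ends ini ter S).card) *
      ((Om (Fe ini ter) cf B ∅ ini).card : ℝ) := by
  classical
  obtain ⟨k, hk⟩ : ∃ k, k = S.card := ⟨_, rfl⟩
  obtain ⟨m, hm⟩ : ∃ m, m = (ends ini ter S).card := ⟨_, rfl⟩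
  have h1 := hF S hS
  have h2 : (ends ini ter S).card ≤ 2 * S.card := ends_card_le _ _ _
  have hk1 : 1 ≤ k := by rw [hk]; exact card_pos.2 hS
  have hn : (1000 : ℝ) ≤ n := by
    have := H.hn
    rw [Fintype.card_fin] at this
    exact_mod_cast this
  have hn0 : (0 : ℝ) < n := by linarith
  rw [← hk, ← hm] at h1 h2
  have hsub : (Om (Fe ini ter) cf B ∅ ini).filter (fun lab =>
      ((⟨ini, ter, lab⟩ : LOG (Fin n) E).letters S).card < 2 * S.card) ⊆
      (Om (Fe ini ter) cf B ∅ ini).filter (fun lab => m + 1 - k ≤ co lab (ends ini ter S) S.toList) := by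
    intro lab hl
    rw [mem_filter] at hl ⊢
    refine ⟨hl.1, ?_⟩
    have h3 := card_co lab S.toList (ends ini ter S)
    rw [length_toList, ← hk, ← hm] at h3
    have h4 : ends ini ter S ∪ (S.toList.map lab).toFinset =
        (⟨ini, ter, lab⟩ : LOG (Fin n) E).letters S := by
      ext y
      unfold LOG.letters LOG.lt
      rw [mem_union, mem_ends, List.mem_toFinset, List.mem_map, mem_biUnion]
      simp only [mem_insert, mem_singleton, mem_toList]
      constructor
      · rintro (⟨e, he, h | h⟩ | ⟨e, he, h⟩)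
        · exact ⟨e, he, Or.inl h⟩
        · exact ⟨e, he, Or.inr (Or.inl h)⟩
        · exact ⟨e, he, Or.inr (Or.inr h.symm)⟩
      · rintro ⟨e, he, h | h | h⟩
        · exact Or.inl ⟨e, he, Or.inl h⟩
        · exact Or.inl ⟨e, he, Or.inr h⟩
        · exact Or.inr ⟨e, he, h.symm⟩
    rw [h4] at h3
    have h5 := hl.2
    rw [← hk] at h5
    omega
  have h3 := seq H B S.toList (nodup_toList S) ∅ (by simp) (by rw [length_toList]; simp; omega)
    ini (ends ini ter S) (m + 1 - k)
  rw [length_toList, ← hk, ← hm, Fintype.card_fin] at h3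
  obtain ⟨W, hW⟩ : ∃ W : ℝ, W = ((Om (Fe ini ter) cf B ∅ ini).card : ℝ) := ⟨_, rfl⟩
  have hW0 : 0 ≤ W := by rw [hW]; positivity
  rw [← hk, ← hm, ← hW]
  rw [← hW] at h3
  have h4 : (((Om (Fe ini ter) cf B ∅ ini).filter (fun lab =>
      ((⟨ini, ter, lab⟩ : LOG (Fin n) E).letters S).card < 2 * k)).card : ℝ) ≤
      (((Om (Fe ini ter) cf B ∅ ini).filter
        (fun lab => m + 1 - k ≤ co lab (ends ini ter S) S.toList)).card : ℝ) := by
    rw [hk] at hsub ⊢
    exact_mod_cast card_le_card hsub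
  refine (mul_le_mul_of_nonneg_right h4 hn0.le).trans ?_
  obtain ⟨c, hc⟩ : ∃ c : ℝ, c = (((Om (Fe ini ter) cf B ∅ ini).filter
        (fun lab => m + 1 - k ≤ co lab (ends ini ter S) S.toList)).card : ℝ) := ⟨_, rfl⟩
  rw [← hc] at h3 ⊢
  have h5 : (4 * ((m : ℝ) + k)) ^ (m + 1 - k) ≤ (12 * (k : ℝ)) ^ (k + 1) := by
    have hkR : (1 : ℝ) ≤ k := by exact_mod_cast hk1
    have hmR : (m : ℝ) ≤ 2 * k := by exact_mod_cast h2
    calc (4 * ((m : ℝ) + k)) ^ (m + 1 - k) ≤ (12 * (k : ℝ)) ^ (m + 1 - k) := by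
          apply pow_le_pow_left₀ (by positivity)
          linarith
      _ ≤ (12 * (k : ℝ)) ^ (k + 1) := by
          apply pow_le_pow_right₀
          · linarith
          · omega
  have h6 : c * (n : ℝ) ^ (m + 1 - k) ≤ 2 ^ k * (12 * (k : ℝ)) ^ (k + 1) * W := by
    refine h3.trans ?_
    apply mul_le_mul_of_nonneg_right _ hW0
    exact mul_le_mul_of_nonneg_left h5 (by positivity)
  have h7 : (n : ℝ) ^ (m + 1 - k) * ((n : ℝ) ^ k / (n : ℝ) ^ m) = n := by
    rw [← mul_div_assoc, ← pow_add, show m + 1 - k + k = m + 1 by omega, pow_succ]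
    field_simp
  calc c * n = (c * (n : ℝ) ^ (m + 1 - k)) * ((n : ℝ) ^ k / (n : ℝ) ^ m) := by
        rw [mul_assoc, h7]
    _ ≤ (2 ^ k * (12 * (k : ℝ)) ^ (k + 1) * W) * ((n : ℝ) ^ k / (n : ℝ) ^ m) :=
        mul_le_mul_of_nonneg_right h6 (by positivity)
    _ = _ := by ring

lemma const_sum : ∑ k ∈ Finset.Icc (1:ℕ) 7, (2 : ℝ) ^ k * (12 * (k : ℝ)) ^ (k + 1) * aa k ≤ 10 ^ 23 := by
  norm_num [Finset.sum_Icc_succ_top, aa]

/-- most restricted labellings of a tree are diagrammatically reducible -/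
theorem fixedA {E : Type} [Fintype E] [DecidableEq E] {n : ℕ} (hn : 3 ≤ n) (ini ter : E → Fin n)
    (hE : Fintype.card E + 1 = n) (hne : ∀ e, ini e ≠ ter e)
    (hF : ∀ C : Finset E, C.Nonempty → C.card + 1 ≤ (ends ini ter C).card)
    (cf : E → E → Prop) (hsym : ∀ e f, cf e f → cf f e)
    (hcf : ∀ e f, cf e f → ini e = ini f ∨ ter e = ter f) (B : Finset (Fin n)) :
    ({lab : E → Fin n | Ok (Fe ini ter) cf B lab ∧
      ¬ DR (⟨ini, ter, lab⟩ : LOG (Fin n) E).rel}.ncard : ℝ) ≤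
    10 ^ 23 * (∑ v : Fin n, (dg ini ter v : ℝ) ^ 7) / (n : ℝ) ^ 2 *
      ({lab : E → Fin n | Ok (Fe ini ter) cf B lab}.ncard : ℝ) := by
  classical
  have hn' : (3 : ℝ) ≤ n := by exact_mod_cast hn
  have hn0 : (0 : ℝ) < n := by linarith
  obtain ⟨Q, hQ⟩ : ∃ Q : ℝ, Q = ∑ v : Fin n, (dg ini ter v : ℝ) ^ 7 := ⟨_, rfl⟩
  have hA : {lab : E → Fin n | Ok (Fe ini ter) cf B lab} =
      ((Om (Fe ini ter) cf B ∅ ini : Finset (E → Fin n)) : Set (E → Fin n)) := by
    ext lab
    rw [mem_coe, mem_Om, Set.mem_setOf_eq]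
    simp
  have hbadA : ({lab : E → Fin n | Ok (Fe ini ter) cf B lab ∧
      ¬ DR (⟨ini, ter, lab⟩ : LOG (Fin n) E).rel}.ncard : ℝ) ≤
      ((Om (Fe ini ter) cf B ∅ ini).card : ℝ) := by
    have h1 : {lab : E → Fin n | Ok (Fe ini ter) cf B lab ∧
      ¬ DR (⟨ini, ter, lab⟩ : LOG (Fin n) E).rel} ⊆ {lab : E → Fin n | Ok (Fe ini ter) cf B lab} :=
      fun lab h => h.1
    have h2 := Set.ncard_le_ncard h1 (Set.toFinite _)
    rw [hA, Set.ncard_coe_finset] at h2
    exact_mod_cast h2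
  rw [hA, Set.ncard_coe_finset, ← hQ]
  obtain ⟨W, hW⟩ : ∃ W : ℝ, W = ((Om (Fe ini ter) cf B ∅ ini).card : ℝ) := ⟨_, rfl⟩
  have hW0 : 0 ≤ W := by rw [hW]; positivity
  rw [← hW] at hbadA ⊢
  have hQ0 : 0 ≤ Q := by rw [hQ]; positivity
  by_cases hbig : (n : ℝ) ^ 2 ≤ 10 ^ 23 * Q
  · refine hbadA.trans ?_
    have h1 : 1 ≤ 10 ^ 23 * Q / (n : ℝ) ^ 2 := by
      rw [one_le_div (by positivity)]
      exact hbig
    nlinarith
  · push Not at hbig
    have hdv : ∀ v, 10 ^ 23 * (dg ini ter v : ℝ) ^ 7 < (n : ℝ) ^ 2 := by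
      intro v
      have h1 : (dg ini ter v : ℝ) ^ 7 ≤ Q := by
        rw [hQ]
        exact single_le_sum (f := fun v => (dg ini ter v : ℝ) ^ 7) (fun i _ => by positivity)
          (mem_univ v)
      linarith
    -- `n` is large
    have hnl : 1000 ≤ n := by
      have h1 : 0 < Fintype.card E := by omega
      obtain ⟨e⟩ := Fintype.card_pos_iff.1 h1
      have h2 : 1 ≤ dg ini ter (ini e) := by
        unfold dg
        rw [Nat.one_le_iff_ne_zero, ← Nat.pos_iff_ne_zero, card_pos]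
        exact ⟨e, by simp⟩
      have h3 := hdv (ini e)
      have h4 : (1 : ℝ) ≤ (dg ini ter (ini e) : ℝ) ^ 7 := one_le_pow₀ (by exact_mod_cast h2)
      by_contra hcon
      push Not at hcon
      have h5 : (n : ℝ) < 1000 := by exact_mod_cast hcon
      nlinarith
    have hdl : ∀ v, 128 * dg ini ter v ≤ Fintype.card (Fin n) := by
      intro v
      rw [Fintype.card_fin]
      by_contra hcon
      push Not at hcon
      have h1 : (n : ℝ) ≤ 128 * (dg ini ter v : ℝ) := by exact_mod_cast hcon.le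
      have h2 : (n : ℝ) ^ 7 ≤ (128 * (dg ini ter v : ℝ)) ^ 7 := pow_le_pow_left₀ hn0.le h1 7
      have h3 : (n : ℝ) ^ 2 ≤ (n : ℝ) ^ 7 := pow_le_pow_right₀ (by linarith) (by norm_num)
      have h4 := hdv v
      have h5 : (0 : ℝ) ≤ (dg ini ter v : ℝ) ^ 7 := by positivity
      rw [mul_pow] at h2
      nlinarith
    have H := hyp_of ini ter cf hsym hcf (by rw [hE, Fintype.card_fin])
      (by rw [Fintype.card_fin]; exact hnl) hdl
    obtain ⟨A, hAA⟩ : ∃ A : Finset (E → Fin n), A = Om (Fe ini ter) cf B ∅ ini := ⟨_, rfl⟩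
    obtain ⟨J, hJ⟩ : ∃ J : Finset (Finset E), J =
      (Finset.Icc (1:ℕ) 7).biUnion (fun k => powersetCard k univ) := ⟨_, rfl⟩
    obtain ⟨G, hG⟩ : ∃ G : Finset E → Finset (E → Fin n), G = fun S => A.filter (fun lab =>
      ((⟨ini, ter, lab⟩ : LOG (Fin n) E).letters S).card < 2 * S.card) := ⟨_, rfl⟩
    have hsub : {lab : E → Fin n | Ok (Fe ini ter) cf B lab ∧
        ¬ DR (⟨ini, ter, lab⟩ : LOG (Fin n) E).rel} ⊆ ((J.biUnion G : Finset (E → Fin n)) :
          Set (E → Fin n)) := by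
      rintro lab ⟨hl, hdr⟩
      have hcomp : (⟨ini, ter, lab⟩ : LOG (Fin n) E).Compressed := by
        intro e
        have h1 := hl.1 e
        unfold Fe at h1
        rw [mem_insert, mem_singleton, not_or] at h1
        exact ⟨hne e, h1.1, h1.2⟩
      have hsp : ¬ (⟨ini, ter, lab⟩ : LOG (Fin n) E).Sparse 7 := fun h => hdr (sparse_DR _ hcomp h)
      simp only [LOG.Sparse, not_forall, not_le] at hsp
      obtain ⟨S, hS7, hS⟩ := hsp
      rw [mem_coe, mem_biUnion]
      refine ⟨S, ?_, ?_⟩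
      · rw [hJ, mem_biUnion]
        refine ⟨S.card, ?_, ?_⟩
        · rw [mem_Icc]
          refine ⟨?_, hS7⟩
          by_contra h0
          have : S.card = 0 := by omega
          rw [this] at hS
          omega
        · rw [mem_powersetCard]
          exact ⟨subset_univ _, rfl⟩
      · rw [hG, mem_filter]
        refine ⟨?_, hS⟩
        rw [hAA, mem_Om]
        exact ⟨hl, by simp⟩
    obtain ⟨b, hb⟩ : ∃ b : ℝ, b = ({lab : E → Fin n | Ok (Fe ini ter) cf B lab ∧
        ¬ DR (⟨ini, ter, lab⟩ : LOG (Fin n) E).rel}.ncard : ℝ) := ⟨_, rfl⟩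
    rw [← hb]
    have h1 : b ≤ ∑ S ∈ J, ((G S).card : ℝ) := by
      rw [hb, ← Nat.cast_sum]
      have h2 := Set.ncard_le_ncard hsub (Finset.finite_toSet _)
      rw [Set.ncard_coe_finset] at h2
      exact_mod_cast h2.trans card_biUnion_le
    have h2 : ∑ S ∈ J, ((G S).card : ℝ) =
        ∑ k ∈ Finset.Icc (1:ℕ) 7, ∑ S ∈ powersetCard k (univ : Finset E), ((G S).card : ℝ) := by
      rw [hJ, sum_biUnion]
      intro a _ b _ hab
      rw [Function.onFun, disjoint_left]
      intro S hS hS'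
      rw [mem_powersetCard] at hS hS'
      exact hab (hS.2.symm.trans hS'.2)
    have hM7 := MM_nonneg ini ter n 7
    have h3 : ∀ k ∈ Finset.Icc (1:ℕ) 7,
        (∑ S ∈ powersetCard k (univ : Finset E), ((G S).card : ℝ)) * n ≤
        ((2 : ℝ) ^ k * (12 * (k : ℝ)) ^ (k + 1) * aa k) * (MM ini ter n 7 * W) := by
      intro k hk
      rw [mem_Icc] at hk
      have h4 : (∑ S ∈ powersetCard k (univ : Finset E), ((G S).card : ℝ)) * n ≤
          (2 : ℝ) ^ k * (12 * (k : ℝ)) ^ (k + 1) * WW ini ter n k * W := by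
        rw [sum_mul]
        unfold WW
        rw [mul_sum, sum_mul]
        refine sum_le_sum fun S hS => ?_
        rw [mem_powersetCard] at hS
        have hS0 : S.Nonempty := by
          rw [← card_pos]
          omega
        have h5 := bad_S ini ter cf H B hF S hS0 (by omega)
        rw [hG, hAA, hW]
        rw [hS.2] at h5
        simp only
        rw [hS.2]
        exact h5
      refine h4.trans ?_
      have h5 := WW_le ini ter n (by omega) (Fintype.card_fin n) hF 7 aa le_rfl aa_nonneg aa_rec k hk.2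
      have h6 := MM_mono ini ter n k 7 hk.1 hk.2
      have h7 : WW ini ter n k ≤ aa k * MM ini ter n 7 :=
        h5.trans (mul_le_mul_of_nonneg_left h6 (aa_nonneg k))
      calc (2 : ℝ) ^ k * (12 * (k : ℝ)) ^ (k + 1) * WW ini ter n k * W
          ≤ (2 : ℝ) ^ k * (12 * (k : ℝ)) ^ (k + 1) * (aa k * MM ini ter n 7) * W := by
            apply mul_le_mul_of_nonneg_right _ hW0
            exact mul_le_mul_of_nonneg_left h7 (by positivity)
        _ = _ := by ring
    have h4 : b * n ≤ 10 ^ 23 * (MM ini ter n 7 * W) := by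
      calc b * n ≤ (∑ S ∈ J, ((G S).card : ℝ)) * n := mul_le_mul_of_nonneg_right h1 hn0.le
        _ = ∑ k ∈ Finset.Icc (1:ℕ) 7,
            (∑ S ∈ powersetCard k (univ : Finset E), ((G S).card : ℝ)) * n := by rw [h2, sum_mul]
        _ ≤ ∑ k ∈ Finset.Icc (1:ℕ) 7,
            ((2 : ℝ) ^ k * (12 * (k : ℝ)) ^ (k + 1) * aa k) * (MM ini ter n 7 * W) := sum_le_sum h3
        _ = (∑ k ∈ Finset.Icc (1:ℕ) 7, (2 : ℝ) ^ k * (12 * (k : ℝ)) ^ (k + 1) * aa k) *
            (MM ini ter n 7 * W) := by rw [sum_mul]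
        _ ≤ _ := mul_le_mul_of_nonneg_right const_sum (mul_nonneg hM7 hW0)
    have h5 : MM ini ter n 7 = Q / n := by rw [hQ]; rfl
    rw [h5] at h4
    calc b = b * n / n := by field_simp
      _ ≤ (10 ^ 23 * (Q / n * W)) / n := div_le_div_of_nonneg_right h4 hn0.le
      _ = _ := by field_simp

end Pool.Agent.TH22.LT
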