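import Pool.Agent.TH22.LT.M3
import Pool.Agent.TH22.LT.M7

/-!
# Moments of the degrees in the set of all reduced labelled oriented trees
-/

set_option autoImplicit false

namespace Pool.Agent.TH22.LT

open Finset
open Pool.Agent.H891R2.RL.RG2 (ends ends_insert ends_card_le)

variable {V E : Type} [DecidableEq V] [DecidableEq E] [Fintype V] [Fintype E]

/-- two edges with the same initial or the same terminal vertex -/
def Ad (p : (E → V) × (E → V)) (e f : E) : Prop := p.1 e = p.1 f ∨ p.2 e = p.2 f

/-- the leaves -/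
def Lv (p : (E → V) × (E → V)) : Finset V := univ.filter (fun x => dg p.1 p.2 x ≤ 1)

/-- reduced labelled oriented trees -/
def Red (s : ((E → V) × (E → V)) × (E → V)) : Prop :=
  Tr s.1 ∧ Ok (Fe s.1.1 s.1.2) (Ad s.1) (Lv s.1) s.2

/-- the label of `e` is the label of another edge -/
def nu (lab : E → V) (e : E) : Prop := ∃ f, f ≠ e ∧ lab f = lab e

open Classical in
/-- the new state: the edge is moved from `v` to `u` and gets the label `z`, if the old label is
also the label of another edge -/
noncomputable def nx (s : ((E → V) × (E → V)) × (E → V)) (v : V) (m : E × V × V) :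
    ((E → V) × (E → V)) × (E → V) :=
  (sw s.1 m.1 v m.2.1, if nu s.2 m.1 then Function.update s.2 m.1 m.2.2 else s.2)

omit [Fintype V] [Fintype E] [DecidableEq V] in
lemma at_sw [DecidableEq V] (p : (E → V) × (E → V)) (e : E) (v u x : V) (hx : x ≠ v)
    (hev : p.1 e = v ∨ p.2 e = v) (f : E) (hf : p.1 f = x ∨ p.2 f = x) :
    (sw p e v u).1 f = x ∨ (sw p e v u).2 f = x := by
  by_cases h : f = e
  · subst h
    unfold sw
    by_cases h1 : p.1 f = v
    · rw [if_pos h1]
      rcases hf with hf | hf
      · exact absurd (hf.symm.trans h1) hx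
      · exact Or.inr hf
    · rw [if_neg h1]
      rcases hf with hf | hf
      · exact Or.inl hf
      · exact absurd (hf.symm.trans (hev.resolve_left h1)) hx
  · rw [(sw_ne p e v u f h).1, (sw_ne p e v u f h).2]
    exact hf

lemma dg_sw_ge (p : (E → V) × (E → V)) (e : E) (v u x : V) (hx : x ≠ v)
    (hev : p.1 e = v ∨ p.2 e = v) :
    dg p.1 p.2 x ≤ dg (sw p e v u).1 (sw p e v u).2 x := by
  apply card_le_card
  intro f hf
  rw [mem_filter] at hf ⊢
  exact ⟨mem_univ _, at_sw p e v u x hx hev f hf.2⟩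

lemma dg_sw_le (p : (E → V) × (E → V)) (e : E) (v u x : V) :
    dg (sw p e v u).1 (sw p e v u).2 x ≤ dg p.1 p.2 x + 1 := by
  have h1 : univ.filter (fun f => (sw p e v u).1 f = x ∨ (sw p e v u).2 f = x) ⊆
      insert e (univ.filter (fun f => p.1 f = x ∨ p.2 f = x)) := by
    intro f hf
    rw [mem_filter] at hf
    rw [mem_insert]
    by_cases h : f = e
    · exact Or.inl h
    · right
      rw [(sw_ne p e v u f h).1, (sw_ne p e v u f h).2] at hf
      rw [mem_filter]
      exact ⟨mem_univ _, hf.2⟩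
  exact (card_le_card h1).trans (card_insert_le _ _)

omit [Fintype V] [Fintype E] in
/-- the end points of the moved edge -/
lemma sw_ends (p : (E → V) × (E → V)) (e : E) (v u : V) (hev : p.1 e = v ∨ p.2 e = v) :
    ∃ w, (p.1 e = w ∨ p.2 e = w) ∧ w = (if p.1 e = v then p.2 e else p.1 e) ∧
      (((sw p e v u).1 e = u ∧ (sw p e v u).2 e = w) ∨
        ((sw p e v u).1 e = w ∧ (sw p e v u).2 e = u)) := by
  unfold sw
  by_cases h1 : p.1 e = v
  · refine ⟨p.2 e, Or.inr rfl, by rw [if_pos h1], ?_⟩
    rw [if_pos h1]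
    exact Or.inl ⟨Function.update_self _ _ _, rfl⟩
  · refine ⟨p.1 e, Or.inl rfl, by rw [if_neg h1], ?_⟩
    rw [if_neg h1]
    exact Or.inr ⟨rfl, Function.update_self _ _ _⟩

/-- the new state is a reduced labelled oriented tree -/
lemma nx_mem (s : ((E → V) × (E → V)) × (E → V)) (hs : Red s) (v : V)
    (hd : 3 ≤ dg s.1.1 s.1.2 v) (e : E) (u z : V) (hev : s.1.1 e = v ∨ s.1.2 e = v)
    (hT : Tr (sw s.1 e v u)) (hu : nu s.2 e ∨ s.2 e ≠ u)
    (hz : z ∉ YY (Fe (sw s.1 e v u).1 (sw s.1 e v u).2) (Ad (sw s.1 e v u)) s.2 e) :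
    Red (nx s v (e, u, z)) := by
  classical
  obtain ⟨⟨i, t⟩, lab⟩ := s
  obtain ⟨-, k1, k2, k3⟩ := hs
  simp only at k1 k2 k3 hd hev hT hu hz
  obtain ⟨q, hq⟩ : ∃ q, q = sw (i, t) e v u := ⟨_, rfl⟩
  rw [← hq] at hT hz
  have hne : ∀ f, f ≠ e → q.1 f = i f ∧ q.2 f = t f := by
    intro f hf
    rw [hq]
    exact sw_ne (i, t) e v u f hf
  have hlf : ∀ x, x ∈ Lv q → x ∈ Lv (i, t) := by
    intro x hx
    unfold Lv at hx ⊢
    rw [mem_filter] at hx ⊢
    refine ⟨mem_univ _, ?_⟩
    have hxv : x ≠ v := by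
      rintro rfl
      have h1 := dg_sw (i, t) e x u
      rw [← hq] at h1
      have h2 := hx.2
      simp only at h1
      omega
    have h1 := dg_sw_ge (i, t) e v u x hxv hev
    rw [← hq] at h1
    exact h1.trans hx.2
  obtain ⟨w, hw1, -, hw2⟩ := sw_ends (i, t) e v u hev
  rw [← hq] at hw2
  simp only at hw1
  rw [mem_YY] at hz
  push Not at hz
  obtain ⟨z1, z2⟩ := hz
  have had : ∀ f g, f ≠ e → g ≠ e → Ad q f g → Ad (i, t) f g := by
    intro f g hf hg h
    unfold Ad at h ⊢
    rw [(hne f hf).1, (hne f hf).2, (hne g hg).1, (hne g hg).2] at h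
    exact h
  have hfe : ∀ f, f ≠ e → lab f ∉ Fe q.1 q.2 f := by
    intro f hf
    have h1 := k1 f
    unfold Fe at h1 ⊢
    rw [(hne f hf).1, (hne f hf).2]
    exact h1
  unfold nx
  simp only
  rw [← hq]
  by_cases hc : nu lab e
  · rw [if_pos hc]
    refine ⟨hT, ?_, ?_, ?_⟩
    · intro f
      simp only
      by_cases hf : f = e
      · rw [hf, Function.update_self]
        exact z1
      · rw [Function.update_of_ne hf]
        exact hfe f hf
    · intro f g hfg h
      simp only at h ⊢
      by_cases hf : f = e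
      · subst hf
        rw [Function.update_self, Function.update_of_ne hfg.symm]
        exact fun h' => z2 g hfg.symm h h'.symm
      · by_cases hg : g = e
        · subst hg
          rw [Function.update_self, Function.update_of_ne hfg]
          exact fun h' => z2 f hfg (h.imp Eq.symm Eq.symm) h'
        · rw [Function.update_of_ne hf, Function.update_of_ne hg]
          exact k2 f g hfg (had f g hf hg h)
    · intro x hx
      simp only at hx ⊢
      obtain ⟨f, hf⟩ := k3 x (hlf x hx)
      by_cases hfe' : f = e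
      · obtain ⟨f', h1, h2⟩ := hc
        exact ⟨f', by rw [Function.update_of_ne h1, h2, ← hfe', hf]⟩
      · exact ⟨f, by rw [Function.update_of_ne hfe', hf]⟩
  · rw [if_neg hc]
    refine ⟨hT, ?_, ?_, ?_⟩
    · intro f
      simp only
      by_cases hf : f = e
      · subst hf
        have h1 := k1 f
        have h2 := hu.resolve_left hc
        unfold Fe at h1 ⊢
        rw [mem_insert, mem_singleton, not_or] at h1 ⊢
        have h3 : lab f ≠ w := by
          rcases hw1 with h | h
          · rw [← h]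
            exact h1.1
          · rw [← h]
            exact h1.2
        rcases hw2 with ⟨h4, h5⟩ | ⟨h4, h5⟩
        · rw [h4, h5]
          exact ⟨h2, h3⟩
        · rw [h4, h5]
          exact ⟨h3, h2⟩
      · exact hfe f hf
    · intro f g hfg h
      simp only at h ⊢
      by_cases hf : f = e
      · subst hf
        exact fun h' => hc ⟨g, hfg.symm, h'.symm⟩
      · by_cases hg : g = e
        · subst hg
          exact fun h' => hc ⟨f, hfg, h'⟩
        · exact k2 f g hfg (had f g hf hg h)
    · intro x hx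
      simp only at hx ⊢
      exact k3 x (hlf x hx)

open Classical in
/-- all reduced labelled oriented trees -/
noncomputable def AA (E V : Type) [DecidableEq V] [DecidableEq E] [Fintype V] [Fintype E] :
    Finset (((E → V) × (E → V)) × (E → V)) := univ.filter (fun s => Red s)

lemma mem_AA (s : ((E → V) × (E → V)) × (E → V)) : s ∈ AA E V ↔ Red s := by
  classical
  simp [AA]

open Classical in
/-- the possible moves -/
noncomputable def PM2 (s : ((E → V) × (E → V)) × (E → V)) (v : V) : Finset (E × V × V) :=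
  univ.filter (fun m => (s.1.1 m.1 = v ∨ s.1.2 m.1 = v) ∧ Red (nx s v m))

lemma mem_PM2 (s : ((E → V) × (E → V)) × (E → V)) (v : V) (m : E × V × V) :
    m ∈ PM2 s v ↔ (s.1.1 m.1 = v ∨ s.1.2 m.1 = v) ∧ Red (nx s v m) := by
  classical
  simp [PM2]

lemma sum_dg (p : (E → V) × (E → V)) : ∑ x : V, dg p.1 p.2 x ≤ 2 * Fintype.card E := by
  have h1 : ∀ x, dg p.1 p.2 x ≤ (univ.filter (fun e => p.1 e = x)).card +
      (univ.filter (fun e => p.2 e = x)).card := by
    intro x
    unfold dg
    rw [filter_or]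
    exact card_union_le _ _
  refine (sum_le_sum fun x _ => h1 x).trans ?_
  rw [sum_add_distrib, ← card_eq_sum_card_fiberwise (f := p.1) (t := univ),
    ← card_eq_sum_card_fiberwise (f := p.2) (t := univ), card_univ]
  · omega
  · intro _ _
    exact mem_coe.2 (mem_univ _)
  · intro _ _
    exact mem_coe.2 (mem_univ _)

/-- few vertices have large degree -/
lemma few_large (p : (E → V) × (E → V)) (hE : Fintype.card E + 1 = Fintype.card V) :
    (univ.filter (fun x => Fintype.card V < 16 * dg p.1 p.2 x)).card ≤ 31 := by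
  by_contra hcon
  push Not at hcon
  have h1 : (univ.filter (fun x => Fintype.card V < 16 * dg p.1 p.2 x)).card * Fintype.card V ≤
      ∑ x : V, 16 * dg p.1 p.2 x := by
    calc (univ.filter (fun x => Fintype.card V < 16 * dg p.1 p.2 x)).card * Fintype.card V
        = ∑ _x ∈ univ.filter (fun x => Fintype.card V < 16 * dg p.1 p.2 x), Fintype.card V := by
          rw [sum_const, smul_eq_mul]
      _ ≤ ∑ x ∈ univ.filter (fun x => Fintype.card V < 16 * dg p.1 p.2 x), 16 * dg p.1 p.2 x := by
          refine sum_le_sum fun x hx => ?_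
          rw [mem_filter] at hx
          exact hx.2.le
      _ ≤ _ := sum_le_sum_of_subset (filter_subset _ _)
  rw [← mul_sum] at h1
  have h2 := sum_dg p
  have h3 : 32 * Fintype.card V ≤
      (univ.filter (fun x => Fintype.card V < 16 * dg p.1 p.2 x)).card * Fintype.card V :=
    Nat.mul_le_mul_right _ hcon
  omega

/-- a forest has no double edges -/
lemma no_double (p : (E → V) × (E → V)) (hE : Fintype.card E + 1 = Fintype.card V) (hp : Tr p)
    (e f : E) (v w : V) (he : (p.1 e = v ∧ p.2 e = w) ∨ (p.1 e = w ∧ p.2 e = v))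
    (hf : (p.1 f = v ∧ p.2 f = w) ∨ (p.1 f = w ∧ p.2 f = v)) : e = f := by
  by_contra hne
  have h1 := forest_ends p hE hp {e, f} ⟨e, mem_insert_self _ _⟩
  rw [card_pair hne] at h1
  have h2 : ends p.1 p.2 {e, f} ⊆ {v, w} := by
    intro x hx
    rw [mem_ends] at hx
    obtain ⟨g, hg, hx⟩ := hx
    rw [mem_insert, mem_singleton] at hg
    rw [mem_insert, mem_singleton]
    rcases hg with rfl | rfl
    · rcases he with ⟨a, b⟩ | ⟨a, b⟩
      · rw [a, b] at hx
        exact hx
      · rw [a, b] at hx
        exact hx.symm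
    · rcases hf with ⟨a, b⟩ | ⟨a, b⟩
      · rw [a, b] at hx
        exact hx
      · rw [a, b] at hx
        exact hx.symm
  have h3 := card_le_card h2
  have h4 : ({v, w} : Finset V).card ≤ 2 := card_le_two
  omega

/-- the number of moves -/
lemma card_PM2 (hE : Fintype.card E + 1 = Fintype.card V) (hn : 1000 ≤ Fintype.card V)
    (s : ((E → V) × (E → V)) × (E → V)) (hs : Red s) (v : V) :
    (dg s.1.1 s.1.2 v - 34) * (Fintype.card V * Fintype.card V) ≤ 4 * (PM2 s v).card := by
  classical
  rcases Nat.lt_or_ge (dg s.1.1 s.1.2 v) 35 with h34 | h34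
  · rw [show dg s.1.1 s.1.2 v - 34 = 0 by omega, zero_mul]
    exact Nat.zero_le _
  obtain ⟨p, lab⟩ := s
  have hp : Tr p := hs.1
  simp only at h34 ⊢
  obtain ⟨n, hnn⟩ : ∃ n, n = Fintype.card V := ⟨_, rfl⟩
  obtain ⟨U, hU⟩ : ∃ U : Finset V, U = univ.filter (fun u => u ≠ v ∧ 16 * dg p.1 p.2 u ≤ n) := ⟨_, rfl⟩
  have hUc : n ≤ 2 * U.card := by
    have h1 : (univ : Finset V) ⊆ U ∪ ({v} ∪ univ.filter (fun x => Fintype.card V < 16 * dg p.1 p.2 x)) := by
      intro x _
      rw [hU, mem_union, mem_union, mem_filter, mem_filter, mem_singleton]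
      by_cases h2 : x = v
      · exact Or.inr (Or.inl h2)
      · by_cases h3 : 16 * dg p.1 p.2 x ≤ n
        · exact Or.inl ⟨mem_univ _, h2, h3⟩
        · exact Or.inr (Or.inr ⟨mem_univ _, by omega⟩)
    have h2 := card_le_card h1
    have h3 := card_union_le U ({v} ∪ univ.filter (fun x => Fintype.card V < 16 * dg p.1 p.2 x))
    have h4 := card_union_le {v} (univ.filter (fun x => Fintype.card V < 16 * dg p.1 p.2 x))
    rw [card_singleton] at h4
    rw [card_univ] at h2
    have h5 := few_large p hE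
    omega
  -- the other end point
  obtain ⟨w, hw⟩ : ∃ w : E → V, w = fun e => if p.1 e = v then p.2 e else p.1 e := ⟨_, rfl⟩
  have hcount : ∀ u ∈ U, (dg p.1 p.2 v - 34) * n ≤
      2 * ((PM2 (p, lab) v).filter (fun m => m.2.1 = u)).card := by
    intro u hu
    rw [hU, mem_filter] at hu
    obtain ⟨-, huv, hdu⟩ := hu
    obtain ⟨e₀, he₀⟩ := switch p hp u v huv
    obtain ⟨Ev, hEv⟩ : ∃ Ev : Finset E, Ev = univ.filter (fun e => (p.1 e = v ∨ p.2 e = v) ∧
      e ≠ e₀ ∧ 16 * dg p.1 p.2 (w e) ≤ n ∧ (nu lab e ∨ lab e ≠ u)) := ⟨_, rfl⟩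
    have hEvc : dg p.1 p.2 v - 34 ≤ Ev.card := by
      have h1 : univ.filter (fun e => p.1 e = v ∨ p.2 e = v) ⊆ Ev ∪ (({e₀} ∪
          univ.filter (fun e => (p.1 e = v ∨ p.2 e = v) ∧ n < 16 * dg p.1 p.2 (w e))) ∪
          univ.filter (fun e => ¬ nu lab e ∧ lab e = u)) := by
        intro e he
        rw [mem_filter] at he
        rw [hEv, mem_union, mem_union, mem_union, mem_filter, mem_filter, mem_filter, mem_singleton]
        by_cases c1 : e = e₀
        · exact Or.inr (Or.inl (Or.inl c1))
        · by_cases c2 : 16 * dg p.1 p.2 (w e) ≤ n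
          · by_cases c3 : nu lab e ∨ lab e ≠ u
            · exact Or.inl ⟨mem_univ _, he.2, c1, c2, c3⟩
            · push Not at c3
              exact Or.inr (Or.inr ⟨mem_univ _, c3.1, c3.2⟩)
          · exact Or.inr (Or.inl (Or.inr ⟨mem_univ _, he.2, by omega⟩))
      have h2 := card_le_card h1
      have h3 := card_union_le Ev (({e₀} ∪
          univ.filter (fun e => (p.1 e = v ∨ p.2 e = v) ∧ n < 16 * dg p.1 p.2 (w e))) ∪
          univ.filter (fun e => ¬ nu lab e ∧ lab e = u))
      have h4 := card_union_le ({e₀} ∪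
          univ.filter (fun e => (p.1 e = v ∨ p.2 e = v) ∧ n < 16 * dg p.1 p.2 (w e)))
          (univ.filter (fun e => ¬ nu lab e ∧ lab e = u))
      have h5 := card_union_le {e₀}
          (univ.filter (fun e => (p.1 e = v ∨ p.2 e = v) ∧ n < 16 * dg p.1 p.2 (w e)))
      rw [card_singleton] at h5
      have h6 : (univ.filter (fun e => (p.1 e = v ∨ p.2 e = v) ∧ n < 16 * dg p.1 p.2 (w e))).card ≤ 31 := by
        refine le_trans (card_le_card_of_injOn w ?_ ?_) (few_large p hE)
        · intro e he
          rw [mem_coe, mem_filter] at he ⊢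
          exact ⟨mem_univ _, by omega⟩
        · intro e he f hf hef
          rw [mem_coe, mem_filter] at he hf
          have key : ∀ g, (p.1 g = v ∨ p.2 g = v) →
              (p.1 g = v ∧ p.2 g = w g) ∨ (p.1 g = w g ∧ p.2 g = v) := by
            intro g hg
            rw [hw]
            simp only
            by_cases h : p.1 g = v
            · rw [if_pos h]
              exact Or.inl ⟨h, rfl⟩
            · rw [if_neg h]
              exact Or.inr ⟨rfl, hg.resolve_left h⟩
          have k1 := key e he.2.1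
          have k2 := key f hf.2.1
          rw [← hef] at k2
          exact no_double p hE hp e f v (w e) k1 k2
      have h7 : (univ.filter (fun e => ¬ nu lab e ∧ lab e = u)).card ≤ 1 := by
        rw [card_le_one]
        intro a ha b hb
        rw [mem_filter] at ha hb
        by_contra hab
        exact ha.2.1 ⟨b, Ne.symm hab, by rw [ha.2.2, hb.2.2]⟩
      have h8 : (univ.filter (fun e => p.1 e = v ∨ p.2 e = v)).card = dg p.1 p.2 v := rfl
      omega
    -- the new labels
    have hz : ∀ e ∈ Ev, n ≤ 2 * (univ \ YY (Fe (sw p e v u).1 (sw p e v u).2)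
        (Ad (sw p e v u)) lab e).card := by
      intro e he
      rw [hEv, mem_filter] at he
      obtain ⟨-, hev, -, hwe, -⟩ := he
      rw [card_sdiff_of_subset (subset_univ _), card_univ, ← hnn]
      obtain ⟨q, hq⟩ : ∃ q, q = sw p e v u := ⟨_, rfl⟩
      obtain ⟨w', -, hw', hends⟩ := sw_ends p e v u hev
      have hww : w' = w e := by rw [hw', hw]
      rw [← hq] at hends ⊢
      have h1 : (YY (Fe q.1 q.2) (Ad q) lab e).card ≤ 2 + dg q.1 q.2 (q.1 e) + dg q.1 q.2 (q.2 e) := by
        unfold YY
        refine (card_union_le _ _).trans ?_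
        have h2 : (Fe q.1 q.2 e).card ≤ 2 := card_le_two
        have h3 : ((univ.filter (fun g => g ≠ e ∧ Ad q e g)).image lab).card ≤
            dg q.1 q.2 (q.1 e) + dg q.1 q.2 (q.2 e) := by
          refine card_image_le.trans ?_
          refine le_trans (card_le_card ?_) (card_union_le (univ.filter (fun f => q.1 f = q.1 e ∨
            q.2 f = q.1 e)) (univ.filter (fun f => q.1 f = q.2 e ∨ q.2 f = q.2 e)))
          intro g hg
          rw [mem_filter] at hg
          rw [mem_union, mem_filter, mem_filter]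
          rcases hg.2.2 with h | h
          · exact Or.inl ⟨mem_univ _, Or.inl h.symm⟩
          · exact Or.inr ⟨mem_univ _, Or.inr h.symm⟩
        omega
      have h4 := dg_sw_le p e v u u
      have h5 := dg_sw_le p e v u (w e)
      rw [← hq] at h4 h5
      rcases hends with ⟨a, b⟩ | ⟨a, b⟩
      · rw [a, b, hww] at h1
        omega
      · rw [a, b, hww] at h1
        omega
    have h1 : Ev.card * n ≤ 2 * (Ev.sigma (fun e => univ \ YY (Fe (sw p e v u).1 (sw p e v u).2)
        (Ad (sw p e v u)) lab e)).card := by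
      rw [card_sigma, mul_sum, ← smul_eq_mul, ← sum_const]
      exact sum_le_sum fun e he => hz e he
    have h2 : (Ev.sigma (fun e => univ \ YY (Fe (sw p e v u).1 (sw p e v u).2)
        (Ad (sw p e v u)) lab e)).card ≤ ((PM2 (p, lab) v).filter (fun m => m.2.1 = u)).card := by
      apply card_le_card_of_injOn (fun x => (x.1, u, x.2))
      · rintro ⟨e, z⟩ hx
        rw [mem_coe, mem_sigma, mem_sdiff] at hx
        obtain ⟨he, -, hz⟩ := hx
        simp only at he hz
        rw [hEv, mem_filter] at he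
        obtain ⟨-, hev, hne, -, hnu⟩ := he
        rw [mem_coe, mem_filter, mem_PM2]
        exact ⟨⟨hev, nx_mem (p, lab) hs v (by simp only; omega) e u z hev (he₀ e hev hne) hnu hz⟩, rfl⟩
      · rintro ⟨e, z⟩ _ ⟨e', z'⟩ _ h
        simp only [Prod.mk.injEq] at h
        obtain ⟨rfl, -, rfl⟩ := h
        rfl
    calc (dg p.1 p.2 v - 34) * n ≤ Ev.card * n := Nat.mul_le_mul_right _ hEvc
      _ ≤ _ := h1.trans (Nat.mul_le_mul_left 2 h2)
  have h3 : ∑ u ∈ U, ((PM2 (p, lab) v).filter (fun m => m.2.1 = u)).card ≤ (PM2 (p, lab) v).card := by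
    rw [card_eq_sum_card_fiberwise (f := fun m : E × V × V => m.2.1) (s := PM2 (p, lab) v) (t := univ)]
    · exact sum_le_sum_of_subset (subset_univ _)
    · intro _ _
      exact mem_coe.2 (mem_univ _)
  have h4 : U.card * ((dg p.1 p.2 v - 34) * n) ≤ 2 * (PM2 (p, lab) v).card := by
    calc U.card * ((dg p.1 p.2 v - 34) * n) = ∑ _u ∈ U, (dg p.1 p.2 v - 34) * n := by
          rw [sum_const, smul_eq_mul]
      _ ≤ ∑ u ∈ U, 2 * ((PM2 (p, lab) v).filter (fun m => m.2.1 = u)).card := sum_le_sum hcount
      _ ≤ _ := by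
          rw [← mul_sum]
          exact Nat.mul_le_mul_left 2 h3
  rw [← hnn]
  calc (dg p.1 p.2 v - 34) * (n * n) = n * ((dg p.1 p.2 v - 34) * n) := by ring
    _ ≤ (2 * U.card) * ((dg p.1 p.2 v - 34) * n) := Nat.mul_le_mul_right _ hUc
    _ = 2 * (U.card * ((dg p.1 p.2 v - 34) * n)) := by ring
    _ ≤ 2 * (2 * (PM2 (p, lab) v).card) := Nat.mul_le_mul_left 2 h4
    _ = _ := by ring

end Pool.Agent.TH22.LT
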