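import Pool.Agent.TH22.LT.M4
import Pool.Agent.TH22.LT.M8

/-!
# Random reduced labelled oriented trees: moments and the final count
-/

set_option autoImplicit false

namespace Pool.Agent.TH22.LT

open Finset
open Pool.Agent.H891R2.RL
open Pool.Agent.H891R2.RL.RG2 (ends ends_insert ends_card_le)

section

variable {V E : Type} [DecidableEq V] [DecidableEq E] [Fintype V] [Fintype E]

omit [Fintype V] [Fintype E] in
lemma sw_inj (v : V) (e : E) (p p' : (E → V) × (E → V)) (u u' : V)
    (hv : p.1 e = v ∨ p.2 e = v) (hv' : p'.1 e = v ∨ p'.2 e = v) (hiff : p.1 e = v ↔ p'.1 e = v)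
    (h1 : sw p e v u = sw p' e v u') : p = p' ∧ u = u' := by
  unfold sw at h1
  by_cases hc : p.1 e = v
  · have hc' := hiff.1 hc
    rw [if_pos hc, if_pos hc', Prod.mk.injEq] at h1
    obtain ⟨h4, h5⟩ := h1
    have hu : u = u' := by
      have := congrFun h4 e
      simpa using this
    have hp1 : p.1 = p'.1 := by
      funext f
      by_cases hf : f = e
      · rw [hf, hc, hc']
      · have := congrFun h4 f
        rwa [Function.update_of_ne hf, Function.update_of_ne hf] at this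
    exact ⟨Prod.ext hp1 h5, hu⟩
  · have hc' : ¬ p'.1 e = v := fun h => hc (hiff.2 h)
    rw [if_neg hc, if_neg hc', Prod.mk.injEq] at h1
    obtain ⟨h5, h4⟩ := h1
    have hu : u = u' := by
      have := congrFun h4 e
      simpa using this
    have hp2 : p.2 = p'.2 := by
      funext f
      by_cases hf : f = e
      · rw [hf, hv.resolve_left hc, hv'.resolve_left hc']
      · have := congrFun h4 f
        rwa [Function.update_of_ne hf, Function.update_of_ne hf] at this
    exact ⟨Prod.ext h5 hp2, hu⟩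

/-- the switching inequality -/
lemma switching2 (hE : Fintype.card E + 1 = Fintype.card V) (hn : 1000 ≤ Fintype.card V)
    (v : V) (g : ℕ → ℕ) (hg : Monotone g) :
    ∑ s ∈ AA E V, (dg s.1.1 s.1.2 v - 34) * g (dg s.1.1 s.1.2 v) ≤
      16 * ∑ s ∈ AA E V, g (dg s.1.1 s.1.2 v + 1) := by
  classical
  obtain ⟨φ, hφ⟩ : ∃ φ : (Σ _ : ((E → V) × (E → V)) × (E → V), E × V × V) →
      (((E → V) × (E → V)) × (E → V)) × (E × Bool × Bool × V),
    φ = fun x => (nx x.1 v x.2, (x.2.1, decide (x.1.1.1 x.2.1 = v), decide (nu x.1.2 x.2.1),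
      if nu x.1.2 x.2.1 then x.1.2 x.2.1 else x.2.2.2)) := ⟨_, rfl⟩
  obtain ⟨n, hnn⟩ : ∃ n, n = Fintype.card V := ⟨_, rfl⟩
  have key : ∑ s ∈ AA E V, ((dg s.1.1 s.1.2 v - 34) * (n * n)) * g (dg s.1.1 s.1.2 v) ≤
      4 * ((4 * (Fintype.card E * n)) * ∑ s ∈ AA E V, g (dg s.1.1 s.1.2 v + 1)) := by
    calc ∑ s ∈ AA E V, ((dg s.1.1 s.1.2 v - 34) * (n * n)) * g (dg s.1.1 s.1.2 v)
        ≤ ∑ s ∈ AA E V, 4 * ∑ m ∈ PM2 s v, g (dg (nx s v m).1.1 (nx s v m).1.2 v + 1) := by
          refine sum_le_sum fun s hs => ?_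
          rw [mem_AA] at hs
          have h1 := card_PM2 hE hn s hs v
          rw [← hnn] at h1
          calc ((dg s.1.1 s.1.2 v - 34) * (n * n)) * g (dg s.1.1 s.1.2 v)
              ≤ (4 * (PM2 s v).card) * g (dg s.1.1 s.1.2 v) := Nat.mul_le_mul_right _ h1
            _ = 4 * ∑ m ∈ PM2 s v, g (dg s.1.1 s.1.2 v) := by
                rw [sum_const, smul_eq_mul, mul_assoc]
            _ ≤ _ := by
                apply Nat.mul_le_mul_left
                exact sum_le_sum fun m _ => hg (dg_sw s.1 m.1 v m.2.1)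
      _ = 4 * ∑ x ∈ (AA E V).sigma (fun s => PM2 s v), g (dg (φ x).1.1.1 (φ x).1.1.2 v + 1) := by
          rw [← mul_sum, sum_sigma, hφ]
      _ ≤ 4 * ∑ y ∈ (AA E V) ×ˢ (univ : Finset (E × Bool × Bool × V)),
            g (dg y.1.1.1 y.1.1.2 v + 1) := by
          apply Nat.mul_le_mul_left
          rw [← sum_image (f := fun y : (((E → V) × (E → V)) × (E → V)) × (E × Bool × Bool × V) =>
            g (dg y.1.1.1 y.1.1.2 v + 1)) (s := (AA E V).sigma (fun s => PM2 s v)) (g := φ)]
          · apply sum_le_sum_of_subset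
            intro y hy
            rw [mem_image] at hy
            obtain ⟨x, hx, rfl⟩ := hy
            rw [mem_sigma, mem_PM2] at hx
            rw [mem_product, mem_AA, hφ]
            exact ⟨hx.2.2, mem_univ _⟩
          · rintro ⟨⟨p, lab⟩, e, u, z⟩ hx ⟨⟨p', lab'⟩, e', u', z'⟩ hx' h
            rw [mem_coe, mem_sigma, mem_PM2] at hx hx'
            obtain ⟨-, hv, -⟩ := hx
            obtain ⟨-, hv', -⟩ := hx'
            simp only at hv hv'
            rw [hφ] at h
            simp only [Prod.mk.injEq] at h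
            obtain ⟨h1, h2, h3, h4, h5⟩ := h
            subst h2
            have hiff : p.1 e = v ↔ p'.1 e = v := by simpa using h3
            have hnu : nu lab e ↔ nu lab' e := by simpa using h4
            unfold nx at h1
            simp only [Prod.mk.injEq] at h1
            obtain ⟨h6, h7⟩ := h1
            obtain ⟨hp, hu⟩ := sw_inj v e p p' u u' hv hv' hiff h6
            subst hp
            subst hu
            by_cases hc : nu lab e
            · have hc' := hnu.1 hc
              rw [if_pos hc, if_pos hc'] at h7 h5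
              have hz : z = z' := by
                have := congrFun h7 e
                simpa using this
              have hl : lab = lab' := by
                funext f
                by_cases hf : f = e
                · rw [hf, h5]
                · have := congrFun h7 f
                  rwa [Function.update_of_ne hf, Function.update_of_ne hf] at this
              rw [hz, hl]
            · have hc' : ¬ nu lab' e := fun h => hc (hnu.2 h)
              rw [if_neg hc, if_neg hc'] at h7 h5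
              rw [h7, h5]
      _ = 4 * ((4 * (Fintype.card E * n)) * ∑ s ∈ AA E V, g (dg s.1.1 s.1.2 v + 1)) := by
          congr 1
          rw [sum_product, mul_sum]
          refine sum_congr rfl fun s _ => ?_
          show ∑ _y : E × Bool × Bool × V, g (dg s.1.1 s.1.2 v + 1) = _
          rw [sum_const, card_univ, Fintype.card_prod, Fintype.card_prod, Fintype.card_prod,
            Fintype.card_bool, smul_eq_mul, ← hnn]
          ring
  have hn0 : 0 < n * n := by
    have : 0 < n := by omega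
    positivity
  have h1 : ∑ s ∈ AA E V, ((dg s.1.1 s.1.2 v - 34) * (n * n)) * g (dg s.1.1 s.1.2 v) =
      (n * n) * ∑ s ∈ AA E V, (dg s.1.1 s.1.2 v - 34) * g (dg s.1.1 s.1.2 v) := by
    rw [mul_sum]
    refine sum_congr rfl fun s _ => ?_
    ring
  rw [h1] at key
  have h2 : 4 * ((4 * (Fintype.card E * n)) * ∑ s ∈ AA E V, g (dg s.1.1 s.1.2 v + 1)) ≤
      (n * n) * (16 * ∑ s ∈ AA E V, g (dg s.1.1 s.1.2 v + 1)) := by
    have h3 : Fintype.card E * n ≤ n * n := Nat.mul_le_mul_right _ (by omega)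
    calc 4 * ((4 * (Fintype.card E * n)) * ∑ s ∈ AA E V, g (dg s.1.1 s.1.2 v + 1))
        = (Fintype.card E * n) * (16 * ∑ s ∈ AA E V, g (dg s.1.1 s.1.2 v + 1)) := by ring
      _ ≤ _ := Nat.mul_le_mul_right _ h3
  exact Nat.le_of_mul_le_mul_left (key.trans h2) hn0

/-- factorial moments -/
lemma fact_moment2 (hE : Fintype.card E + 1 = Fintype.card V) (hn : 1000 ≤ Fintype.card V)
    (v : V) (m : ℕ) :
    ∑ s ∈ AA E V, (dg s.1.1 s.1.2 v - 34).descFactorial m ≤ 16 ^ m * (AA E V).card := by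
  induction m with
  | zero => simp
  | succ m ih =>
    have h1 := switching2 (E := E) hE hn v (fun d => (d - 35).descFactorial m) (by
      intro a b hab
      exact Nat.descFactorial_le m (Nat.sub_le_sub_right hab 35))
    have h2 : ∀ d : ℕ, (d - 34) * (d - 35).descFactorial m = (d - 34).descFactorial (m + 1) := by
      intro d
      rcases Nat.lt_or_ge d 35 with h | h
      · have h3 : d - 34 = 0 := by omega
        rw [h3, zero_mul, Nat.zero_descFactorial_succ]
      · obtain ⟨c, rfl⟩ : ∃ c, d = c + 35 := ⟨d - 35, by omega⟩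
        rw [show c + 35 - 34 = c + 1 by omega, show c + 35 - 35 = c by omega,
          Nat.succ_descFactorial_succ]
    have h4 : ∑ s ∈ AA E V, (dg s.1.1 s.1.2 v - 34) * (dg s.1.1 s.1.2 v - 35).descFactorial m =
        ∑ s ∈ AA E V, (dg s.1.1 s.1.2 v - 34).descFactorial (m + 1) :=
      sum_congr rfl fun s _ => h2 _
    have h5 : ∑ s ∈ AA E V, (dg s.1.1 s.1.2 v + 1 - 35).descFactorial m =
        ∑ s ∈ AA E V, (dg s.1.1 s.1.2 v - 34).descFactorial m := by
      refine sum_congr rfl fun s _ => ?_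
      congr 1
    rw [h4, h5] at h1
    refine h1.trans ?_
    rw [pow_succ]
    calc 16 * ∑ s ∈ AA E V, (dg s.1.1 s.1.2 v - 34).descFactorial m
        ≤ 16 * (16 ^ m * (AA E V).card) := Nat.mul_le_mul_left _ ih
      _ = _ := by ring

/-- the seventh moment of the degree of a vertex -/
lemma moment_seven2 (hE : Fintype.card E + 1 = Fintype.card V) (hn : 1000 ≤ Fintype.card V) (v : V) :
    ∑ s ∈ AA E V, dg s.1.1 s.1.2 v ^ 7 ≤ 3500000000000 * (AA E V).card := by
  have h0 : ∀ d : ℕ, d ^ 7 ≤ 64 * ((d - 34 + 1) ^ 7 + 33 ^ 7) := by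
    intro d
    have h1 : d ≤ (d - 34 + 1) + 33 := by omega
    have h2 : (d - 34 + 1 + 33) ^ 7 ≤ 2 ^ (7 - 1) * ((d - 34 + 1) ^ 7 + 33 ^ 7) :=
      add_pow_le (Nat.zero_le _) (Nat.zero_le _) 7
    exact (Nat.pow_le_pow_left h1 7).trans (by simpa using h2)
  have h1 : ∑ s ∈ AA E V, (dg s.1.1 s.1.2 v - 34 + 1) ^ 7 ≤ 1093148145 * (AA E V).card := by
    refine (sum_le_sum fun s _ => pow_seven (dg s.1.1 s.1.2 v - 34 + 1)).trans ?_
    simp only [sum_add_distrib, ← mul_sum, Nat.add_sub_cancel]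
    have h := fact_moment2 (E := E) hE hn v
    have h0 := h 0
    have h1 := h 1
    have h2 := h 2
    have h3 := h 3
    have h4 := h 4
    have h5 := h 5
    have h6 := h 6
    have h7 := h 7
    norm_num at h0 h1 h2 h3 h4 h5 h6 h7 ⊢
    omega
  calc ∑ s ∈ AA E V, dg s.1.1 s.1.2 v ^ 7
      ≤ ∑ s ∈ AA E V, 64 * ((dg s.1.1 s.1.2 v - 34 + 1) ^ 7 + 33 ^ 7) := sum_le_sum fun s _ => h0 _
    _ = 64 * (∑ s ∈ AA E V, (dg s.1.1 s.1.2 v - 34 + 1) ^ 7 + 33 ^ 7 * (AA E V).card) := by
        rw [← mul_sum, sum_add_distrib, sum_const, smul_eq_mul]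
        ring
    _ ≤ 64 * (1093148145 * (AA E V).card + 33 ^ 7 * (AA E V).card) := by
        apply Nat.mul_le_mul_left
        exact Nat.add_le_add_right h1 _
    _ ≤ _ := by
        rw [← add_mul, ← mul_assoc]
        apply Nat.mul_le_mul_right
        norm_num

/-- sums over reduced labelled oriented trees -/
lemma sum_AA (f : (E → V) × (E → V) → ℝ) :
    ∑ s ∈ AA E V, f s.1 =
      ∑ p ∈ TT E V, f p * ({lab : E → V | Ok (Fe p.1 p.2) (Ad p) (Lv p) lab}.ncard : ℝ) := by
  classical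
  rw [← sum_fiberwise_of_maps_to (g := fun s : ((E → V) × (E → V)) × (E → V) => s.1)
    (s := AA E V) (t := TT E V)]
  · refine sum_congr rfl fun p hp => ?_
    rw [mem_TT] at hp
    have h1 : ((AA E V).filter (fun s => s.1 = p)).card =
        {lab : E → V | Ok (Fe p.1 p.2) (Ad p) (Lv p) lab}.ncard := by
      have h2 : {lab : E → V | Ok (Fe p.1 p.2) (Ad p) (Lv p) lab} =
          ((univ.filter (fun lab => Ok (Fe p.1 p.2) (Ad p) (Lv p) lab) : Finset (E → V)) :
            Set (E → V)) := by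
        ext lab
        simp
      rw [h2, Set.ncard_coe_finset]
      apply card_nbij' (fun s => s.2) (fun lab => (p, lab))
      · intro s hs
        rw [mem_coe, mem_filter, mem_AA] at hs
        rw [mem_coe, mem_filter]
        obtain ⟨h3, h4⟩ := hs
        rw [← h4]
        exact ⟨mem_univ _, h3.2⟩
      · intro lab hl
        rw [mem_coe, mem_filter] at hl
        rw [mem_coe, mem_filter, mem_AA]
        exact ⟨⟨hp, hl.2⟩, rfl⟩
      · intro s hs
        rw [mem_coe, mem_filter] at hs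
        exact Prod.ext hs.2.symm rfl
      · intro lab _
        rfl
    rw [← h1, sum_congr rfl (g := fun _ => f p)]
    · rw [sum_const, nsmul_eq_mul]
      ring
    · intro s hs
      rw [mem_filter] at hs
      rw [hs.2]
  · intro s hs
    rw [mem_AA] at hs
    rw [mem_TT]
    exact hs.1

end

/-- reducedness of a labelled oriented graph -/
def RedLOG {V E : Type} (L : LOG V E) : Prop :=
  L.Compressed ∧
  (∀ e f, e ≠ f → (L.ini e = L.ini f ∨ L.ter e = L.ter f) → L.lab e ≠ L.lab f) ∧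
  ∀ x, (∃! e, L.ini e = x ∨ L.ter e = x) → ∃ f, L.lab f = x

lemma red_iff {V E : Type} [DecidableEq V] [DecidableEq E] [Fintype V] [Fintype E]
    (hE : Fintype.card E + 1 = Fintype.card V) (hV : 2 ≤ Fintype.card V)
    (ini ter lab : E → V) (hp : Tr (ini, ter)) :
    RedLOG (⟨ini, ter, lab⟩ : LOG V E) ↔
      Ok (Fe ini ter) (Ad (ini, ter)) (Lv (ini, ter)) lab := by
  classical
  have hne : ∀ e, ini e ≠ ter e := fun e => no_loop (ini, ter) hE hp e
  have hdg : ∀ x, 1 ≤ dg ini ter x := by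
    intro x
    by_contra hcon
    have h0 : dg ini ter x = 0 := by omega
    unfold dg at h0
    rw [card_eq_zero, filter_eq_empty_iff] at h0
    have h1 := hp {x} (singleton_nonempty _) (by
      intro e
      have h2 := h0 (mem_univ e)
      push Not at h2
      simp only [mem_singleton]
      exact ⟨fun h => absurd h h2.1, fun h => absurd h h2.2⟩)
    have h2 := congrArg Finset.card h1
    rw [card_singleton, card_univ] at h2
    omega
  have hleaf : ∀ x, x ∈ Lv (ini, ter) ↔ ∃! e, ini e = x ∨ ter e = x := by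
    intro x
    unfold Lv
    rw [mem_filter]
    have h1 := hdg x
    constructor
    · rintro ⟨-, h2⟩
      simp only at h2
      have h3 : dg ini ter x = 1 := by omega
      unfold dg at h3
      rw [card_eq_one] at h3
      obtain ⟨e, he⟩ := h3
      have h4 : ∀ f, (ini f = x ∨ ter f = x) ↔ f = e := by
        intro f
        have : f ∈ univ.filter (fun e => ini e = x ∨ ter e = x) ↔ f ∈ ({e} : Finset E) := by rw [he]
        rw [mem_filter, mem_singleton] at this
        simpa using this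
      exact ⟨e, (h4 e).2 rfl, fun f hf => (h4 f).1 hf⟩
    · rintro ⟨e, he, huniq⟩
      refine ⟨mem_univ _, ?_⟩
      simp only
      unfold dg
      rw [card_le_one]
      intro a ha b hb
      rw [mem_filter] at ha hb
      rw [huniq a ha.2, huniq b hb.2]
  unfold RedLOG Ok LOG.Compressed Fe Ad
  simp only [mem_insert, mem_singleton, not_or]
  constructor
  · rintro ⟨h1, h2, h3⟩
    exact ⟨fun e => (h1 e).2, h2, fun b hb => h3 b ((hleaf b).1 hb)⟩
  · rintro ⟨h1, h2, h3⟩
    exact ⟨fun e => ⟨hne e, h1 e⟩, h2, fun b hb => h3 b ((hleaf b).2 hb)⟩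

/-- almost all reduced labelled oriented trees are diagrammatically reducible -/
theorem all_reduced (n : ℕ) (hn : 3 ≤ n) :
    ({L : LOG (Fin n) (Fin (n - 1)) | (gr (L.ini, L.ter)).IsTree ∧ (RedLOG L ∧
      ¬ DR L.rel)}.ncard : ℝ) ≤
    10 ^ 36 / n *
      ({L : LOG (Fin n) (Fin (n - 1)) | (gr (L.ini, L.ter)).IsTree ∧ RedLOG L}.ncard : ℝ) := by
  classical
  have : Nonempty (Fin n) := ⟨⟨0, by omega⟩⟩
  have hE : Fintype.card (Fin (n - 1)) + 1 = n := by
    rw [Fintype.card_fin]
    omega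
  have hE' : Fintype.card (Fin (n - 1)) + 1 = Fintype.card (Fin n) := by
    rw [hE, Fintype.card_fin]
  have hn' : (3 : ℝ) ≤ n := by exact_mod_cast hn
  have hn0 : (0 : ℝ) < n := by linarith
  rw [count_LOT hE (fun L => RedLOG L ∧ ¬ DR L.rel), count_LOT hE (fun L => RedLOG L)]
  have hgood : ∀ p ∈ TT (Fin (n - 1)) (Fin n),
      ({lab : Fin (n - 1) → Fin n | RedLOG (⟨p.1, p.2, lab⟩ : LOG (Fin n) (Fin (n - 1)))}.ncard : ℝ) =
        1 * ({lab : Fin (n - 1) → Fin n | Ok (Fe p.1 p.2) (Ad p) (Lv p) lab}.ncard : ℝ) := by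
    intro p hp
    rw [mem_TT] at hp
    rw [one_mul]
    congr 2
    ext lab
    exact red_iff hE' (by rw [Fintype.card_fin]; omega) p.1 p.2 lab hp
  have hbad : ∀ p ∈ TT (Fin (n - 1)) (Fin n),
      ({lab : Fin (n - 1) → Fin n | RedLOG (⟨p.1, p.2, lab⟩ : LOG (Fin n) (Fin (n - 1))) ∧
        ¬ DR (⟨p.1, p.2, lab⟩ : LOG (Fin n) (Fin (n - 1))).rel}.ncard : ℝ) ≤
      (10 ^ 23 * (∑ v : Fin n, (dg p.1 p.2 v : ℝ) ^ 7) / (n : ℝ) ^ 2) *
        ({lab : Fin (n - 1) → Fin n | Ok (Fe p.1 p.2) (Ad p) (Lv p) lab}.ncard : ℝ) := by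
    intro p hp
    rw [mem_TT] at hp
    have h1 := fixedA hn p.1 p.2 hE (fun e => no_loop p hE' hp e)
      (fun C hC => forest_ends p hE' hp C hC) (Ad p)
      (fun e f h => h.imp Eq.symm Eq.symm) (fun e f h => h) (Lv p)
    have h2 : {lab : Fin (n - 1) → Fin n | RedLOG (⟨p.1, p.2, lab⟩ : LOG (Fin n) (Fin (n - 1))) ∧
        ¬ DR (⟨p.1, p.2, lab⟩ : LOG (Fin n) (Fin (n - 1))).rel} =
        {lab : Fin (n - 1) → Fin n | Ok (Fe p.1 p.2) (Ad p) (Lv p) lab ∧
        ¬ DR (⟨p.1, p.2, lab⟩ : LOG (Fin n) (Fin (n - 1))).rel} := by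
      ext lab
      rw [Set.mem_setOf_eq, Set.mem_setOf_eq,
        red_iff hE' (by rw [Fintype.card_fin]; omega) p.1 p.2 lab hp]
    rw [h2]
    exact h1
  have hT : ((∑ p ∈ TT (Fin (n - 1)) (Fin n), {lab : Fin (n - 1) → Fin n |
      RedLOG (⟨p.1, p.2, lab⟩ : LOG (Fin n) (Fin (n - 1)))}.ncard : ℕ) : ℝ) =
      ((AA (Fin (n - 1)) (Fin n)).card : ℝ) := by
    rw [Nat.cast_sum, sum_congr rfl hgood,
      ← sum_AA (fun _ : (Fin (n - 1) → Fin n) × (Fin (n - 1) → Fin n) => (1 : ℝ))]
    rw [sum_const, nsmul_eq_mul, mul_one]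
  rw [hT]
  obtain ⟨t, ht⟩ : ∃ t : ℝ, t = ((AA (Fin (n - 1)) (Fin n)).card : ℝ) := ⟨_, rfl⟩
  have ht0 : 0 ≤ t := by rw [ht]; positivity
  rw [← ht]
  by_cases hsmall : n < 1000
  · -- trivial
    have h1 : ((∑ p ∈ TT (Fin (n - 1)) (Fin n), {lab : Fin (n - 1) → Fin n |
        RedLOG (⟨p.1, p.2, lab⟩ : LOG (Fin n) (Fin (n - 1))) ∧
        ¬ DR (⟨p.1, p.2, lab⟩ : LOG (Fin n) (Fin (n - 1))).rel}.ncard : ℕ) : ℝ) ≤ t := by
      rw [ht, ← hT]
      have h0 : (∑ p ∈ TT (Fin (n - 1)) (Fin n), {lab : Fin (n - 1) → Fin n |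
          RedLOG (⟨p.1, p.2, lab⟩ : LOG (Fin n) (Fin (n - 1))) ∧
          ¬ DR (⟨p.1, p.2, lab⟩ : LOG (Fin n) (Fin (n - 1))).rel}.ncard) ≤
          ∑ p ∈ TT (Fin (n - 1)) (Fin n), {lab : Fin (n - 1) → Fin n |
            RedLOG (⟨p.1, p.2, lab⟩ : LOG (Fin n) (Fin (n - 1)))}.ncard := by
        refine sum_le_sum fun p _ => ?_
        apply Set.ncard_le_ncard _ (Set.toFinite _)
        rintro lab ⟨h, -⟩
        exact h
      exact_mod_cast h0
    refine h1.trans ?_
    have h2 : (n : ℝ) ≤ 10 ^ 36 := by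
      have : (n : ℝ) < 1000 := by exact_mod_cast hsmall
      linarith [show (1000 : ℝ) ≤ 10 ^ 36 by norm_num]
    have h3 : 1 ≤ (10 : ℝ) ^ 36 / n := by
      rw [one_le_div hn0]
      exact h2
    nlinarith
  · push Not at hsmall
    have hmom : ∑ s ∈ AA (Fin (n - 1)) (Fin n), ∑ v : Fin n, (dg s.1.1 s.1.2 v : ℝ) ^ 7 ≤
        3500000000000 * n * t := by
      rw [sum_comm]
      have h1 : ∀ v ∈ (univ : Finset (Fin n)), ∑ s ∈ AA (Fin (n - 1)) (Fin n),
          (dg s.1.1 s.1.2 v : ℝ) ^ 7 ≤ 3500000000000 * t := by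
        intro v _
        have := moment_seven2 (E := Fin (n - 1)) (V := Fin n) hE'
          (by rw [Fintype.card_fin]; omega) v
        rw [ht]
        exact_mod_cast this
      refine (sum_le_sum h1).trans ?_
      rw [sum_const, card_univ, Fintype.card_fin, nsmul_eq_mul]
      exact le_of_eq (by ring)
    rw [sum_AA (fun p : (Fin (n - 1) → Fin n) × (Fin (n - 1) → Fin n) =>
      ∑ v : Fin n, (dg p.1 p.2 v : ℝ) ^ 7)] at hmom
    rw [Nat.cast_sum]
    calc _ ≤ ∑ p ∈ TT (Fin (n - 1)) (Fin n),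
          (10 ^ 23 * (∑ v : Fin n, (dg p.1 p.2 v : ℝ) ^ 7) / (n : ℝ) ^ 2) *
            ({lab : Fin (n - 1) → Fin n | Ok (Fe p.1 p.2) (Ad p) (Lv p) lab}.ncard : ℝ) :=
          sum_le_sum hbad
      _ = (10 ^ 23 / (n : ℝ) ^ 2) * ∑ p ∈ TT (Fin (n - 1)) (Fin n),
          (∑ v : Fin n, (dg p.1 p.2 v : ℝ) ^ 7) *
            ({lab : Fin (n - 1) → Fin n | Ok (Fe p.1 p.2) (Ad p) (Lv p) lab}.ncard : ℝ) := by
          rw [mul_sum]
          refine sum_congr rfl fun p _ => ?_
          ring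
      _ ≤ (10 ^ 23 / (n : ℝ) ^ 2) * (3500000000000 * n * t) :=
          mul_le_mul_of_nonneg_left hmom (by positivity)
      _ = (10 ^ 23 * 3500000000000) / n * t := by
          field_simp
      _ ≤ 10 ^ 36 / n * t := by
          apply mul_le_mul_of_nonneg_right _ ht0
          apply div_le_div_of_nonneg_right _ hn0.le
          norm_num

end Pool.Agent.TH22.LT
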